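import Pool.Agent.Helper6.SH.Stm

/-!
# ALGC: continuation of an algebroid germ along a circle
-/

set_option autoImplicit false

open Complex MeasureTheory Metric Set Filter Topology ComplexConjugate

namespace Pool.Agent.Helper6.SH.ALGC

open Pool.Agent.E8helper32.SA (per eqOn_convex per_re exp_add_per)
open Pool.Agent.E8helper32.SQ (cont)
open Pool.Agent.Helper6.SF

theorem strip_conv (t0 ε : ℝ) : Convex ℝ {τ : ℂ | |τ.re - t0| < ε} := by
  have h1 : {τ : ℂ | |τ.re - t0| < ε} = {τ : ℂ | t0 - ε < τ.re} ∩ {τ : ℂ | τ.re < t0 + ε} := by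
    ext τ
    simp only [mem_ofPred_eq, mem_inter_iff, abs_lt]
    constructor
    · rintro ⟨h1, h2⟩
      exact ⟨by linarith, by linarith⟩
    · rintro ⟨h1, h2⟩
      exact ⟨by linarith, by linarith⟩
  rw [h1]
  exact (convex_halfSpace_re_gt _).inter (convex_halfSpace_re_lt _)

theorem strip_open (t0 ε : ℝ) : IsOpen {τ : ℂ | |τ.re - t0| < ε} :=
  isOpen_lt (continuous_abs.comp (continuous_re.sub continuous_const)) continuous_const

theorem main (hX : S_ALGX) : S_ALGC := by
  intro W d c x t0 ε τ0 u hW hS hε hstrip hτ0 hu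
  classical
  set Ω : Set ℂ := {τ : ℂ | |τ.re - t0| < ε} with hΩ
  have hΩc : Convex ℝ Ω := strip_conv t0 ε
  have hΩo : IsOpen Ω := strip_open t0 ε
  have hexpd : ∀ t : ℂ, DifferentiableAt ℂ (fun t => x + exp t) t := fun t =>
    (differentiableAt_const _).add differentiableAt_exp
  obtain ⟨G, hGd, hGu, hGP⟩ := cont hΩc hΩo (x0 := τ0) hτ0
    (fun τ F => ∃ g' : ℂ → ℂ, AG d c (x + exp τ) g' ∧ F =ᶠ[𝓝 τ] fun t => g' (x + exp t)) (by
    rintro τ F F' ⟨g', h1, h3⟩ hFF'
    exact ⟨g', h1, hFF'.symm.trans h3⟩) (by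
    intro y hy
    obtain ⟨δ', ⟨hsub, hext⟩, hδ'⟩ := ((hX W d c (x + exp y) hW hS (hstrip y hy)).and
      self_mem_nhdsWithin).exists
    obtain ⟨s, hs, hss⟩ := Metric.eventually_nhds_iff_ball.1
      ((hexpd y).continuousAt.eventually (isOpen_ball.mem_nhds (mem_ball_self hδ')))
    refine ⟨s, hs, ?_⟩
    rintro t ht - F ⟨g', h1, h3⟩
    obtain ⟨E0, hE0, hE0g, hE0A⟩ := hext _ (hss t ht) g' h1
    refine ⟨fun u => E0 (x + exp u), fun u hu => ?_, ?_, fun u hu _ => ?_⟩
    · have h4 : DifferentiableAt ℂ E0 (x + exp u) :=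
        hE0.differentiableAt (isOpen_ball.mem_nhds (hss u hu))
      exact (DifferentiableAt.comp (g := E0) (f := fun t => x + exp t) u h4
        (hexpd u)).differentiableWithinAt
    · have h4 : (fun u => E0 (x + exp u)) =ᶠ[𝓝 t] fun u => g' (x + exp u) :=
        (hexpd t).continuousAt.tendsto.eventually hE0g
      exact h4.trans h3.symm
    · exact ⟨E0, hE0A _ (hss u hu), EventuallyEq.refl _ _⟩)
    (f := fun t => u (x + exp t)) ⟨u, hu, EventuallyEq.refl _ _⟩
  have hper : ∀ (τ : ℂ) (j : ℕ), τ ∈ Ω → τ + per j ∈ Ω := by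
    intro τ j hτ
    show |(τ + per j).re - t0| < ε
    rw [add_re, per_re, add_zero]
    exact hτ
  have hroot : ∀ τ ∈ Ω, ∀ j : ℕ, Ev d c (x + exp τ) (G (τ + per j)) = 0 := by
    intro τ hτ j
    obtain ⟨g', h1, h2⟩ := hGP (τ + per j) (hper τ j hτ)
    have h3 := h1.2.self_of_nhds
    rw [h2.self_of_nhds]
    show Ev d c (x + exp τ) (g' (x + exp (τ + per j))) = 0
    rw [exp_add_per] at h3 ⊢
    exact h3
  have hGs : ∀ k : ℕ, DifferentiableOn ℂ (fun τ => G (τ + per k)) Ω := fun k =>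
    hGd.comp (differentiableOn_id.add_const _) fun τ hτ => hper τ k hτ
  obtain ⟨⟨i, j⟩, hij, hije⟩ := pigeon
    (((Finset.range (d + 1)) ×ˢ (Finset.range (d + 1))).filter fun p => p.1 < p.2)
    (f := fun p τ => G (τ + per p.2) - G (τ + per p.1)) (z := τ0) (by
      rintro ⟨i, j⟩ -
      exact ((hGs j).analyticAt (hΩo.mem_nhds hτ0)).sub ((hGs i).analyticAt (hΩo.mem_nhds hτ0))) (by
      filter_upwards [hΩo.mem_nhds hτ0] with τ hτ
      by_contra hcon
      push Not at hcon
      have hinj : Set.InjOn (fun j : ℕ => G (τ + per j)) (Finset.range (d + 1)) := by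
        intro i hi j hj hij
        have hij' : G (τ + per i) = G (τ + per j) := hij
        rcases lt_trichotomy i j with h6 | h6 | h6
        · exact absurd (sub_eq_zero.2 hij'.symm) (hcon (i, j) (by
            rw [Finset.mem_filter, Finset.mem_product]; exact ⟨⟨hi, hj⟩, h6⟩))
        · exact h6
        · exact absurd (sub_eq_zero.2 hij') (hcon (j, i) (by
            rw [Finset.mem_filter, Finset.mem_product]; exact ⟨⟨hj, hi⟩, h6⟩))
      have h7 := card_le (hS.hd (x + exp τ) (hstrip τ hτ))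
        ((Finset.range (d + 1)).image fun j => G (τ + per j)) (by
        intro y hy
        rw [Finset.mem_image] at hy
        obtain ⟨j, hj, rfl⟩ := hy
        exact hroot τ hτ j)
      rw [Finset.card_image_of_injOn hinj, Finset.card_range] at h7
      omega)
  rw [Finset.mem_filter, Finset.mem_product] at hij
  obtain ⟨⟨hi, hj⟩, hlt⟩ := hij
  simp only at hi hj hlt hije
  have heq := eqOn_convex hΩc hΩo (hGs j) (hGs i) (x := τ0) hτ0 (by
    filter_upwards [hije] with τ hτ
    exact sub_eq_zero.1 hτ)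
  refine ⟨G, hGd, hGu, j - i, Nat.sub_pos_of_lt hlt, ?_⟩
  intro τ hτ
  have hτ' : τ - per i ∈ Ω := by
    show |(τ - per i).re - t0| < ε
    rw [sub_re, per_re, sub_zero]
    exact hτ
  have h1 := heq hτ'
  simp only [sub_add_cancel] at h1
  have e : τ - per i + per j = τ + per (j - i) := by
    unfold per
    push_cast [Nat.cast_sub hlt.le]
    ring
  rwa [e] at h1

end Pool.Agent.Helper6.SH.ALGC
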