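import Pool.Agent.Helper6.SH.Stm

/-!
# ALGX: extension of algebroid germs to small discs
-/

set_option autoImplicit false

open Complex MeasureTheory Metric Set Filter Topology ComplexConjugate

namespace Pool.Agent.Helper6.SH.ALGX

open Pool.Agent.E8helper32.SA (eqOn_convex)
open Pool.Agent.Helper6.SF

theorem main : S_ALGX := by
  intro W d c y hW hS hy
  obtain ⟨δ2, hδ2, hs2⟩ := Metric.isOpen_iff.1 hW y hy
  obtain ⟨S, h, δ1, hδ1, hhd, hroot⟩ := roots_fn (fun k hk =>
    (hS.hc k hk).analyticAt (hW.mem_nhds hy)) (hS.hd y hy) (hS.hs y hy)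
  filter_upwards [Ioo_mem_nhdsGT (lt_min hδ1 hδ2)] with δ hδ
  have h1 : ball y δ ⊆ ball y δ1 := ball_subset_ball (hδ.2.le.trans (min_le_left _ _))
  have h2 : ball y δ ⊆ W := (ball_subset_ball (hδ.2.le.trans (min_le_right _ _))).trans hs2
  refine ⟨h2, fun w hw u hu => ?_⟩
  obtain ⟨s, hs, hse⟩ := pigeon S (f := fun s v => u v - h s v) (z := w)
    (fun s hs => hu.1.sub ((hhd s hs).analyticAt (isOpen_ball.mem_nhds (h1 hw)))) (by
      filter_upwards [hu.2, isOpen_ball.mem_nhds (h1 hw)] with v h3 h4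
      obtain ⟨s, hs, hx⟩ := hroot v h4 _ h3
      exact ⟨s, hs, sub_eq_zero.2 hx⟩)
  have hse' : h s =ᶠ[𝓝 w] u := hse.mono fun v hv => (sub_eq_zero.1 hv).symm
  have hd : DifferentiableOn ℂ (h s) (ball y δ) := (hhd s hs).mono h1
  have ha : DifferentiableOn ℂ (fun v => Ev d c v (h s v)) (ball y δ) := fun v hv =>
    (ev_an (fun k hk => (hS.hc k hk).analyticAt (hW.mem_nhds (h2 hv)))
      (hd.analyticAt (isOpen_ball.mem_nhds hv))).differentiableAt.differentiableWithinAt
  have heq := eqOn_convex (convex_ball y δ) isOpen_ball ha (differentiableOn_const (0 : ℂ)) hw (by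
    filter_upwards [hse', hu.2] with v h3 h4
    rw [h3]
    exact h4)
  refine ⟨h s, hd, hse', fun w' hw' => ⟨hd.analyticAt (isOpen_ball.mem_nhds hw'), ?_⟩⟩
  filter_upwards [isOpen_ball.mem_nhds hw'] with v hv
  exact heq hv

end Pool.Agent.Helper6.SH.ALGX
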