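import Pool.Agent.Helper6.SH.Stm

/-!
# ISOR (helper50): isolated points, classes with linear circle monodromy
-/

set_option autoImplicit false

open Complex MeasureTheory Metric Set Filter Topology ComplexConjugate

namespace Pool.Agent.Helper6.SH.ISOR

open Pool.Agent.Results.MP_83fd13_an.BranchSingularities
open Pool.Agent.E8helper32.SA (per per_re exp_add_per eqOn_convex branch_ball branch_congr branch_diff)
open Pool.Agent.E8helper32.SL
open Pool.Agent.E8helper32.SQ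
open Pool.Agent.Helper6.SF
open Pool.Agent.Helper6.SG
open Pool.Agent.Helper6.SH

/-- a circle around `x` of radius `exp t0`, `t0 < L`, which avoids a countable set, and an annulus
around it inside an open set -/
theorem circle {V : Set ℂ} {x : ℂ} {L : ℝ} {A : Set ℂ} (hA : A.Countable)
    (hV : ∀ w ∈ ball x (Real.exp L), w ≠ x → w ∉ A → w ∈ V) (hVo : IsOpen V) :
    ∃ t0 ε : ℝ, 0 < ε ∧ t0 + ε ≤ L ∧ ∀ τ : ℂ, |τ.re - t0| < ε → x + exp τ ∈ V := by
  have hc : ((fun w : ℂ => Real.log ‖w - x‖) '' A).Countable := hA.image _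
  obtain ⟨t0, ht0, ht0A⟩ : ∃ t0 ∈ Set.Iio L, t0 ∉ (fun w : ℂ => Real.log ‖w - x‖) '' A := by
    obtain ⟨t, h1, h2⟩ := (hc.dense_compl ℝ).inter_open_nonempty (Set.Iio L) isOpen_Iio
      ⟨L - 1, by simp⟩
    exact ⟨t, h1, h2⟩
  have ht0L : t0 < L := ht0
  have hsph : sphere x (Real.exp t0) ⊆ V := by
    intro w hw
    have hw1 : ‖w - x‖ = Real.exp t0 := by rwa [mem_sphere, dist_eq_norm] at hw
    refine hV w ?_ ?_ ?_
    · rw [mem_ball, dist_eq_norm, hw1]
      exact Real.exp_lt_exp.2 ht0L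
    · rintro rfl
      rw [sub_self, norm_zero] at hw1
      exact (Real.exp_pos t0).ne hw1
    · intro hwA
      exact ht0A ⟨w, hwA, by simp only; rw [hw1, Real.log_exp]⟩
  obtain ⟨η, hη, hηs⟩ := (isCompact_sphere x (Real.exp t0)).exists_thickening_subset_open hVo hsph
  obtain ⟨ε, hε, hεs⟩ := Metric.continuousAt_iff.1 (Real.continuous_exp.continuousAt (x := t0)) η hη
  refine ⟨t0, min ε (L - t0), lt_min hε (by linarith), ?_, fun τ hτ => ?_⟩
  · have := min_le_right ε (L - t0)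
    linarith
  · apply hηs
    rw [Metric.mem_thickening_iff]
    refine ⟨x + exp (t0 + τ.im * I), ?_, ?_⟩
    · rw [mem_sphere, dist_eq_norm, add_sub_cancel_left, norm_exp]
      simp
    · rw [dist_eq_norm, add_sub_add_left_eq_sub]
      have e1 : exp τ - exp ((t0 : ℂ) + τ.im * I) = ((Real.exp τ.re - Real.exp t0 : ℝ) : ℂ) * exp (τ.im * I) := by
        conv_lhs => rw [← re_add_im τ]
        rw [exp_add]
        simp only [add_im, ofReal_im, mul_im, I_im, mul_one, ofReal_re, I_re, mul_zero, add_zero, zero_add, add_re,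
          mul_re, sub_zero, sub_self]
        rw [exp_add]
        push_cast
        ring
      rw [e1, norm_mul, norm_exp_ofReal_mul_I, mul_one, norm_real, Real.norm_eq_abs]
      have h1 := hεs (show dist τ.re t0 < ε by
        rw [Real.dist_eq]
        exact lt_of_lt_of_le hτ (min_le_left _ _))
      rwa [Real.dist_eq] at h1

theorem main : S_PRPR → S_ISOR := by
  classical
  intro hPRP φ r lam B U R x ε0 hSD hNC hBo hB hRP hx hε0 hgood
  have hU := hRP.hU
  have hA := hRP.hA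
  have hD := hSD.hD
  have hprop : ∀ (y : ℂ) (ρ : ℝ), ball y ρ ⊆ B → ∀ E g : ℂ → ℂ, DifferentiableOn ℂ E (ball y ρ) →
      ∀ z ∈ ball y ρ, E =ᶠ[𝓝 z] g → RT U R z g → ∀ z' ∈ ball y ρ, RT U R z' E := by
    intro y ρ hs E g hE z hz hEg hS z' hz'
    exact hPRP B U R y ρ E g z z' hRP hs hE hz hEg hS hz'
  obtain ⟨δ2, hδ2, hs2⟩ := Metric.isOpen_iff.1 hBo x hx
  set δ : ℝ := min ε0 δ2 with hδdef
  have hδ : 0 < δ := lt_min hε0 hδ2
  have hδB : ball x δ ⊆ B := (ball_subset_ball (min_le_right _ _)).trans hs2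
  have hx1 : 1 < ‖x‖ := hB x hx
  refine ⟨δ, hδ, hδB, fun z hz g hg hS => ?_⟩
  obtain ⟨ε1, hε1, hgd1⟩ := branch_diff hD.hφ hg
  obtain ⟨ε2, hε2, hεs⟩ := Metric.eventually_nhds_iff_ball.1 (isOpen_ball.mem_nhds hz)
  obtain ⟨ε, hεdef⟩ : ∃ ε : ℝ, ε = min ε1 ε2 := ⟨_, rfl⟩
  have hε : 0 < ε := by rw [hεdef]; exact lt_min hε1 hε2
  have hgd : DifferentiableOn ℂ g (ball z ε) :=
    hgd1.mono (ball_subset_ball (by rw [hεdef]; exact min_le_left _ _))
  have hεδ : ball z ε ⊆ ball x δ := fun w hw =>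
    hεs w (ball_subset_ball (by rw [hεdef]; exact min_le_right _ _) hw)
  -- the point `z1`
  obtain ⟨z1, hz1, hz1x⟩ : ∃ z1 ∈ ball z ε, z1 ≠ x := by
    by_cases hzx : z = x
    · refine ⟨z + ((ε / 2 : ℝ) : ℂ), ?_, ?_⟩
      · rw [mem_ball, dist_eq_norm, add_sub_cancel_left, norm_real,
          Real.norm_of_nonneg (by positivity)]
        linarith
      · rw [hzx, ne_eq, add_eq_left, ofReal_eq_zero]
        positivity
    · exact ⟨z, mem_ball_self hε, hzx⟩
  have hz1δ := hεδ hz1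
  have hbr1 : Branch φ r z1 g := branch_ball hg (fun w hw => hB w (hδB (hεδ hw))) hgd
    (mem_ball_self hε) hz1
  have hS1 : RT U R z1 g := hprop z ε (hεδ.trans hδB) g g hgd z (mem_ball_self hε)
    (EventuallyEq.refl _ _) hS z1 hz1
  have hfin : ∀ E : ℂ → ℂ, DifferentiableOn ℂ E (ball x δ) → E =ᶠ[𝓝 z1] g → E =ᶠ[𝓝 z] g := by
    intro E hE hEg
    have h4 := eqOn_convex (convex_ball z ε) isOpen_ball (hE.mono hεδ) hgd hz1 hEg
    filter_upwards [isOpen_ball.mem_nhds (mem_ball_self (x := z) hε)] with w hw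
    exact h4 hw
  -- the coordinate
  set L : ℝ := Real.log δ with hLdef
  have hexpL : Real.exp L = δ := Real.exp_log hδ
  have hzw : z1 - x ≠ 0 := sub_ne_zero.2 hz1x
  set τ0 : ℂ := log (z1 - x) with hτ0def
  have hexp0 : exp τ0 = z1 - x := exp_log hzw
  have hz0 : x + exp τ0 = z1 := by rw [hexp0, add_sub_cancel]
  have hτ0 : τ0 ∈ HP L := by
    show τ0.re < L
    rw [hτ0def, log_re, hLdef]
    refine Real.log_lt_log (norm_pos_iff.2 hzw) ?_
    rwa [mem_ball, dist_eq_norm] at hz1δ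
  have hmem : ∀ τ ∈ HP L, x + exp τ ∈ ball x δ ∧ x + exp τ ≠ x := by
    intro τ hτ
    constructor
    · rw [mem_ball, dist_eq_norm, add_sub_cancel_left, norm_exp, ← hexpL]
      exact Real.exp_lt_exp.2 hτ
    · intro h
      exact exp_ne_zero τ (by simp at h)
  have hexpd : ∀ t : ℂ, DifferentiableAt ℂ (fun t => x + exp t) t := fun t =>
    (differentiableAt_const _).add differentiableAt_exp
  set P : ℂ → (ℂ → ℂ) → Prop := fun τ F => ∃ g' : ℂ → ℂ, Branch φ r (x + exp τ) g' ∧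
    RT U R (x + exp τ) g' ∧ F =ᶠ[𝓝 τ] fun t => g' (x + exp t) with hP
  obtain ⟨G, hGd, hGg, hGP⟩ := cont (HP_conv L) (HP_open L) hτ0 P (by
    rintro τ F F' ⟨g', h1, h2, h3⟩ hFF'
    exact ⟨g', h1, h2, hFF'.symm.trans h3⟩) (by
    intro y hy
    obtain ⟨hy1, hy2⟩ := hmem y hy
    obtain ⟨δ', hδ', hsub, hext⟩ := hgood (x + exp y) (ball_subset_ball (min_le_left _ _) hy1)
      hy2 (hδB hy1)
    obtain ⟨s, hs, hss⟩ := Metric.eventually_nhds_iff_ball.1
      ((hexpd y).continuousAt.eventually (isOpen_ball.mem_nhds (mem_ball_self hδ')))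
    refine ⟨s, hs, ?_⟩
    rintro t ht - F ⟨g', h1, h2, h3⟩
    obtain ⟨E0, hE0, hE0g⟩ := hext _ (hss t ht) g' h1 h2
    refine ⟨fun u => E0 (x + exp u), fun u hu => ?_, ?_, fun u hu _ => ?_⟩
    · have h4 : DifferentiableAt ℂ E0 (x + exp u) :=
        hE0.differentiableAt (isOpen_ball.mem_nhds (hss u hu))
      exact (DifferentiableAt.comp (g := E0) (f := fun t => x + exp t) u h4
        (hexpd u)).differentiableWithinAt
    · have h4 : (fun u => E0 (x + exp u)) =ᶠ[𝓝 t] fun u => g' (x + exp u) :=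
        (hexpd t).continuousAt.tendsto.eventually hE0g
      exact h4.trans h3.symm
    · refine ⟨E0, ?_, ?_, EventuallyEq.refl _ _⟩
      · exact branch_ball (branch_congr hD.hφ h1 hE0g.symm) (fun w hw => hB w (hsub hw)) hE0
          (hss t ht) (hss u hu)
      · exact hprop _ _ hsub E0 g' hE0 _ (hss t ht) hE0g h2 _ (hss u hu))
    (f := fun t => g (x + exp t)) ⟨g, by rw [hz0]; exact hbr1, by rw [hz0]; exact hS1,
      EventuallyEq.refl _ _⟩
  have hP0 : P0 φ r x L G := by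
    refine ⟨hD, hx1, hGd, fun τ hτ => ?_⟩
    obtain ⟨g', h1, -, h3⟩ := hGP τ hτ
    exact ⟨g', h1, h3⟩
  -- the circle
  obtain ⟨t0, ε', hε', hεL, hcirc⟩ := circle (V := B ∩ U) (x := x) (L := L) hA (fun w hw _ hwA => by
    rw [hexpL] at hw
    refine ⟨hδB hw, ?_⟩
    by_contra h
    exact hwA ⟨hδB hw, h⟩) (hBo.inter hU)
  have hstrip : ∀ τ : ℂ, |τ.re - t0| < ε' → τ ∈ HP L := by
    intro τ hτ
    show τ.re < L
    have := (abs_lt.1 hτ).2
    linarith
  obtain ⟨N, κ, c, hN, hκ, hrel⟩ := hRP.circ x t0 ε' G hε' hcirc (hGd.mono hstrip) (by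
    intro τ hτ
    obtain ⟨g', -, h2, h3⟩ := hGP τ (hstrip τ hτ)
    exact ⟨g', h2.self_of_nhds (hcirc τ hτ).2, h3⟩)
  have hGs : ∀ s : ℂ, (∀ τ ∈ HP L, τ + s ∈ HP L) → DifferentiableOn ℂ (fun τ => G (τ + s)) (HP L) := fun s hs =>
    hGd.comp (differentiableOn_id.add_const _) fun τ hτ => hs τ hτ
  have hper : ∀ τ ∈ HP L, τ + per N ∈ HP L := fun τ hτ => HP_per hτ N
  have hmon : ∀ τ ∈ HP L, G (τ + per N + per N) - G (τ + per N) =
      κ * (G (τ + per N) - G τ) + c := by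
    have h2 : DifferentiableOn ℂ (fun τ => G (τ + per N + per N) - G (τ + per N)) (HP L) := by
      refine DifferentiableOn.sub ?_ (hGs _ hper)
      have h3 := hGs (per N + per N) (fun τ hτ => by
        rw [← add_assoc]
        exact hper _ (hper τ hτ))
      refine h3.congr fun τ _ => ?_
      simp only [add_assoc]
    have h3 : DifferentiableOn ℂ (fun τ => κ * (G (τ + per N) - G τ) + c) (HP L) :=
      (((hGs _ hper).sub hGd).const_mul κ).add_const c
    have ht0 : (t0 : ℂ) ∈ HP L := hstrip _ (by simpa using hε')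
    have h4 := eqOn_convex (HP_conv L) (HP_open L) h2 h3 ht0 (by
      have h5 : ∀ᶠ τ : ℂ in 𝓝 (t0 : ℂ), |τ.re - t0| < ε' := by
        have h6 : Continuous fun τ : ℂ => |τ.re - t0| := by fun_prop
        have h7 := h6.continuousAt (x := (t0 : ℂ))
        refine h7.eventually (gt_mem_nhds ?_)
        simpa using hε'
      filter_upwards [h5] with τ hτ
      exact hrel τ hτ)
    intro τ hτ
    exact h4 hτ
  rcases lin φ r lam x L G B N κ c hSD hP0 (fun w hw =>
    hB w (hδB (by rwa [hexpL] at hw))) hx hN hκ hmon with hE | hC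
  · obtain ⟨E, hE, hGE⟩ := hE
    have hlm : Tendsto (lm x τ0) (𝓝 z1) (𝓝 τ0) := by
      have h1 : DifferentiableAt ℂ (lm x τ0) (x + exp τ0) := lm_diff (κ := 1) le_rfl
        (mem_ball_self (by rw [one_mul]; exact norm_pos_iff.2 (exp_ne_zero _)))
      have h2 := h1.continuousAt.tendsto
      rwa [lm_self, hz0] at h2
    have hlme : ∀ᶠ w in 𝓝 z1, x + exp (lm x τ0 w) = w := by
      have h1 : ball (x + exp τ0) (1 * ‖exp τ0‖) ∈ 𝓝 z1 := by
        rw [hz0, one_mul]
        exact isOpen_ball.mem_nhds (mem_ball_self (norm_pos_iff.2 (exp_ne_zero _)))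
      filter_upwards [h1] with w hw
      rw [lm_exp le_rfl hw, add_sub_cancel]
    rw [hexpL] at hE
    refine ⟨E, hE, hfin E hE ?_⟩
    filter_upwards [hlme, hlm.eventually hGg, hlm.eventually ((HP_open L).mem_nhds hτ0)]
      with w h1 h2 h3
    rw [hGE _ h3, h1] at h2
    exact h2
  · obtain ⟨m, -, hmC⟩ := hC
    exact absurd hmC (hNC m)

end Pool.Agent.Helper6.SH.ISOR
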