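import Pool.Agent.Helper6.SH.Stm

/-!
# LOCR (helper63): the local and the global theorem, for classes of germs
-/

set_option autoImplicit false

open Complex MeasureTheory Metric Set Filter Topology ComplexConjugate

namespace Pool.Agent.Helper6.SH.LOCR

open Pool.Agent.Results.MP_83fd13_an.BranchSingularities
open Pool.Agent.Y245.UC (Rf VG)
open Pool.Agent.E8helper32.SA (per per_re exp_add_per eqOn_convex branch_ball branch_congr)
open Pool.Agent.E8helper32.SL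
open Pool.Agent.E8helper32.SP (entire_of_ext)
open Pool.Agent.E8helper32.SQ
open Pool.Agent.Helper6.SF
open Pool.Agent.Helper6.SG
open Pool.Agent.Helper6.SH

variable {φ : ℂ → ℂ} {r : ℝ} {B U : Set ℂ} {R : ℂ → (ℂ → ℂ) → Prop}

theorem RT_congr (hRP : RP B U R) (hBo : IsOpen B) {z : ℂ} (hz : z ∈ B) {f g : ℂ → ℂ}
    (hR : RT U R z f) (hfg : f =ᶠ[𝓝 z] g) : RT U R z g := by
  have h1 : ∀ᶠ y in 𝓝 z, f =ᶠ[𝓝 y] g := eventually_eventually_nhds.2 hfg
  have h2 : ∀ᶠ y in 𝓝 z, y ∈ B := hBo.mem_nhds hz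
  filter_upwards [hR, h1, h2] with w h3 h4 h5 h6
  exact hRP.congr w f g ⟨h5, h6⟩ (h3 h6) h4

theorem GoodR_open {y : ℂ} (hG : GoodR φ r B U R y) : ∀ᶠ w in 𝓝 y, GoodR φ r B U R w := by
  obtain ⟨δ, hδ, hs, h1⟩ := hG
  filter_upwards [isOpen_ball.mem_nhds (mem_ball_self hδ)] with w hw
  have hsub : ball w (δ - dist w y) ⊆ ball y δ := ball_subset_ball' (by linarith)
  refine ⟨δ - dist w y, by rw [mem_ball] at hw; linarith, hsub.trans hs, fun z hz g hg hS => ?_⟩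
  obtain ⟨E, hE, hEg⟩ := h1 z (hsub hz) g hg hS
  exact ⟨E, hE.mono hsub, hEg⟩

theorem GoodR_reg (hRP : RP B U R) {y : ℂ} (hy : y ∈ B ∩ U) : GoodR φ r B U R y := by
  obtain ⟨δ, hδ, hs, h1⟩ := hRP.ext y hy
  refine ⟨δ, hδ, fun w hw => (hs hw).1, fun z hz g _ hS => ?_⟩
  obtain ⟨E, hE, hEg, -⟩ := h1 z hz g (hS.self_of_nhds (hs hz).2)
  exact ⟨E, hE, hEg⟩

theorem RP_mono (hRP : RP B U R) {B' : Set ℂ} (hB' : IsOpen B') (hs : B' ⊆ B) : RP B' U R where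
  hU := hRP.hU
  hA := hRP.hA.mono (sdiff_subset_sdiff_left hs)
  congr := fun w f g hw => hRP.congr w f g ⟨hs hw.1, hw.2⟩
  ext := by
    intro y hy
    obtain ⟨δ, hδ, hδs, h1⟩ := hRP.ext y ⟨hs hy.1, hy.2⟩
    obtain ⟨η, hη, hηs⟩ := Metric.isOpen_iff.1 hB' y hy.1
    have h2 : ball y (min δ η) ⊆ ball y δ := ball_subset_ball (min_le_left _ _)
    have h3 : ball y (min δ η) ⊆ ball y η := ball_subset_ball (min_le_right _ _)
    refine ⟨min δ η, lt_min hδ hη, fun w hw => ⟨hηs (h3 hw), (hδs (h2 hw)).2⟩,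
      fun w hw f hf => ?_⟩
    obtain ⟨E, hE, hEf, h4⟩ := h1 w (h2 hw) f hf
    exact ⟨E, hE.mono h2, hEf, fun w' hw' => h4 w' (h2 hw')⟩
  circ := by
    intro x t0 ε G hε h1 h2 h3
    exact hRP.circ x t0 ε G hε (fun τ hτ => ⟨hs (h1 τ hτ).1, (h1 τ hτ).2⟩) h2 h3

/-- **The local theorem.** -/
theorem main : S_PRPR → S_ISOR → S_LOCR := by
  intro hPRP hISOX φ r lam U R c0 ρ z g hSD hNC hB hRP hz hg hS
  have hD := hSD.hD
  have hprop : ∀ (y : ℂ) (ρ' : ℝ), ball y ρ' ⊆ ball c0 ρ → ∀ E g : ℂ → ℂ,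
      DifferentiableOn ℂ E (ball y ρ') →
      ∀ z ∈ ball y ρ', E =ᶠ[𝓝 z] g → RT U R z g → ∀ z' ∈ ball y ρ', RT U R z' E := by
    intro y ρ' hs E g hE z hz hEg hS z' hz'
    exact hPRP (ball c0 ρ) U R y ρ' E g z z' hRP hs hE hz hEg hS hz'
  -- all points are good
  have hall : ∀ y ∈ ball c0 ρ, GoodR φ r (ball c0 ρ) U R y := by
    by_contra hcon
    push Not at hcon
    obtain ⟨y0, hy0, hy0g⟩ := hcon
    set A : Set ℂ := {y | y ∈ ball c0 ρ ∧ ¬ GoodR φ r (ball c0 ρ) U R y} with hAdef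
    have hAs : A ⊆ ball c0 ρ \ U := by
      rintro y ⟨h1, h2⟩
      exact ⟨h1, fun h3 => h2 (GoodR_reg hRP ⟨h1, h3⟩)⟩
    have hAo : IsOpen (ball c0 ρ \ A) := by
      rw [isOpen_iff_mem_nhds]
      rintro y ⟨h1, h2⟩
      have h3 : GoodR φ r (ball c0 ρ) U R y := by
        by_contra h3
        exact h2 ⟨h1, h3⟩
      filter_upwards [isOpen_ball.mem_nhds h1, GoodR_open h3] with w h4 h5
      exact ⟨h4, fun h6 => h6.2 h5⟩
    obtain ⟨x, hxA, ε, hε, hiso⟩ := Pool.Agent.E8helper36.SQ.iso (ball c0 ρ) A isOpen_ball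
      (fun y hy => hy.1) hAo (hRP.hA.mono hAs) ⟨y0, hy0, hy0g⟩
    refine hxA.2 (hISOX φ r lam (ball c0 ρ) U R x ε hSD hNC isOpen_ball
      hB hRP hxA.1 hε fun w hw hne hwB => ?_)
    by_contra h1
    exact hne (hiso w hw ⟨hwB, h1⟩)
  obtain ⟨G, hG, hGg, -⟩ := cont (convex_ball c0 ρ) isOpen_ball hz
    (fun y F => Branch φ r y F ∧ (y ∈ ball c0 ρ → RT U R y F)) (by
    rintro y F F' ⟨h1, h2⟩ hFF'
    exact ⟨branch_congr hD.hφ h1 hFF', fun hy => RT_congr hRP isOpen_ball hy (h2 hy) hFF'⟩) (by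
    intro y hy
    obtain ⟨δ, hδ, hs, h1⟩ := hall y hy
    refine ⟨δ, hδ, ?_⟩
    rintro t ht - F ⟨h2, h3⟩
    have h3' := h3 (hs ht)
    obtain ⟨E, hE, hEF⟩ := h1 t ht F h2 h3'
    refine ⟨E, hE, hEF, fun u hu _ => ⟨?_, fun _ => ?_⟩⟩
    · exact branch_ball (branch_congr hD.hφ h2 hEF.symm) (fun w hw => hB w (hs hw)) hE ht hu
    · exact hprop _ _ hs E F hE _ ht hEF h3' _ hu) (f := g) ⟨hg, fun _ => hS⟩
  exact ⟨G, hG, hGg⟩

/-- **The global theorem.** -/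
theorem glob : S_PRPR → S_LOCR → S_GLBR := by
  intro hPRP hLOCX φ r lam U R z0 hSD hNC hRP hz01 hz0r hR
  have hD := hSD.hD
  have hr := hD.hr
  have hr0 : 0 < r := by linarith
  have hex : IsOpen {w : ℂ | 1 < ‖w‖} := isOpen_lt continuous_const continuous_norm
  refine entire_of_ext hr0 hD.hφ fun ρ hρ h hh hhφ x hx => ?_
  have hρ1 : 1 < ρ := lt_of_lt_of_le hr hρ
  have hρ0 : 0 < ρ := by linarith
  rw [mem_sphere_zero_iff_norm] at hx
  have hann : IsOpen {w : ℂ | 1 < ‖w‖ ∧ ‖w‖ < ρ} :=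
    (isOpen_lt continuous_const continuous_norm).inter
      (isOpen_lt continuous_norm continuous_const)
  have hSh : ∀ z ∈ {w : ℂ | 1 < ‖w‖ ∧ ‖w‖ < ρ}, RT U R z h :=
    clopen (ann_pre hρ0) (by
      intro x hx
      obtain ⟨t, ht, hts⟩ := Metric.isOpen_iff.1 hann x hx
      have h1 : ball x t ⊆ {w : ℂ | 1 < ‖w‖} := fun w hw => (hts hw).1
      refine ⟨t, ht, hts, fun y hy hPy z hz => ?_⟩
      exact hPRP {w : ℂ | 1 < ‖w‖} U R x t h h y z hRP h1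
        (hh.mono fun w hw => by rw [mem_ball_zero_iff]; exact (hts hw).2) hy
        (EventuallyEq.refl _ _) hPy hz) (x0 := z0) ⟨hz01, hz0r.trans_le hρ⟩
      (RT_congr hRP hex hz01 hR (by
        filter_upwards [isOpen_ball.mem_nhds (mem_ball_zero_iff.2 hz0r)] with w hw
        exact (hhφ hw).symm))
  have hB : ∀ w ∈ ball x (ρ - 1), 1 < ‖w‖ := by
    intro w hw
    rw [mem_ball, dist_eq_norm] at hw
    have h2 : ‖x‖ ≤ ‖w‖ + ‖w - x‖ := by
      have := norm_sub_le w (w - x)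
      rwa [sub_sub_cancel] at this
    linarith
  -- the point `z`
  set s : ℝ := (ρ + 1) / (2 * ρ) with hs
  have hs0 : 0 < s := by positivity
  have hsρ : s * ρ = (ρ + 1) / 2 := by rw [hs]; field_simp
  have hs1 : s < 1 := by
    rw [hs, div_lt_one (by positivity)]; linarith
  have hzn : ‖(s : ℂ) * x‖ = (ρ + 1) / 2 := by
    rw [norm_mul, norm_real, Real.norm_of_nonneg hs0.le, hx, hsρ]
  have hzx : (s : ℂ) * x ∈ ball x (ρ - 1) := by
    have e : (s : ℂ) * x - x = ((s - 1 : ℝ) : ℂ) * x := by push_cast; ring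
    rw [mem_ball, dist_eq_norm, e, norm_mul, norm_real, hx, Real.norm_eq_abs,
      abs_of_neg (by linarith)]
    have : -(s - 1) * ρ = ρ - (ρ + 1) / 2 := by rw [← hsρ]; ring
    rw [this]
    linarith
  have hz0 : (s : ℂ) * x ∈ ball (0 : ℂ) ρ := by rw [mem_ball_zero_iff, hzn]; linarith
  obtain ⟨E, hE, hEh⟩ := hLOCX φ r lam U R x (ρ - 1) _ h hSD
    (fun m hC => hNC m (hC.mono le_rfl hB)) hB (RP_mono hRP isOpen_ball hB) hzx
    (branch_radial hD hρ hh hhφ hz0 (by rw [hzn]; linarith)) (hSh _ (by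
      refine ⟨?_, ?_⟩
      · rw [hzn]; linarith
      · rw [hzn]; linarith))
  exact ⟨ρ - 1, E, _, by linarith, hE, ⟨hzx, hz0⟩, hEh⟩

end Pool.Agent.Helper6.SH.LOCR
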