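import Pool.Agent.Helper6.SH.Stm

/-!
# PRPR: propagation in discs (helper77)
-/

set_option autoImplicit false

open Complex MeasureTheory Metric Set Filter Topology ComplexConjugate

namespace Pool.Agent.Helper6.SH.PRPR

open Pool.Agent.Helper6.SH

theorem main : S_PRPR := by
  intro B U R c0 ρ E g z z' hR hB hE hz hEg hT hz'
  have hEa : AnalyticOnNhd ℂ E (ball c0 ρ) := hE.analyticOnNhd isOpen_ball
  have hA : (ball c0 ρ \ U).Countable := hR.hA.mono (sdiff_subset_sdiff_left hB)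
  have hW : IsPreconnected (ball c0 ρ ∩ U) := by
    have h1 := Pool.Agent.E8helper36.SQ.conn c0 ρ _ hA
    rwa [Set.sdiff_sdiff_right_self] at h1
  have hWo : IsOpen (ball c0 ρ ∩ U) := isOpen_ball.inter hR.hU
  -- a point of `U` near `z` at which the germ of `E` is in the class
  obtain ⟨w0, hw0, hRw0⟩ : ∃ w0 ∈ ball c0 ρ ∩ U, R w0 E := by
    have h1 : ∀ᶠ w in 𝓝 z, E =ᶠ[𝓝 w] g := eventually_eventually_nhds.2 hEg
    obtain ⟨ε, hε, hεs⟩ := Metric.eventually_nhds_iff_ball.1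
      ((hT.and h1).and (isOpen_ball.mem_nhds hz))
    obtain ⟨y1, hy1, hy1n⟩ : ∃ y1 ∈ ball z ε, y1 ∉ ball c0 ρ \ U := by
      obtain ⟨z2, h2, h3⟩ := (hA.dense_compl ℝ).inter_open_nonempty (ball z ε) isOpen_ball
        ⟨z, mem_ball_self hε⟩
      exact ⟨z2, h2, h3⟩
    have hy1x : y1 ∈ ball c0 ρ := (hεs y1 hy1).2
    have hy1U : y1 ∈ U := by
      by_contra h1
      exact hy1n ⟨hy1x, h1⟩
    refine ⟨y1, ⟨hy1x, hy1U⟩, ?_⟩
    exact hR.congr y1 g E ⟨hB hy1x, hy1U⟩ ((hεs y1 hy1).1.1 hy1U) (hεs y1 hy1).1.2.symm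
  have hall : ∀ w ∈ ball c0 ρ ∩ U, R w E := by
    refine Pool.Agent.Helper6.SF.clopen hW (P := fun w => R w E) ?_ hw0 hRw0
    intro y hy
    obtain ⟨δ, hδ, hδs, hext⟩ := hR.ext y ⟨hB hy.1, hy.2⟩
    obtain ⟨δ', hδ', hδ's⟩ := Metric.isOpen_iff.1 hWo y hy
    refine ⟨min δ δ', lt_min hδ hδ', (ball_subset_ball (min_le_right _ _)).trans hδ's, ?_⟩
    intro w hw hRw v hv
    have hwδ : w ∈ ball y δ := ball_subset_ball (min_le_left _ _) hw
    obtain ⟨E', hE', hE'w, hE'R⟩ := hext w hwδ E hRw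
    have h1 : AnalyticOnNhd ℂ E' (ball y (min δ δ')) := fun x hx =>
      hE'.analyticOnNhd isOpen_ball x (ball_subset_ball (min_le_left _ _) hx)
    have h2 : AnalyticOnNhd ℂ E (ball y (min δ δ')) := fun x hx =>
      hEa x (hδ's (ball_subset_ball (min_le_right _ _) hx)).1
    have h3 : EqOn E' E (ball y (min δ δ')) :=
      h1.eqOn_of_preconnected_of_eventuallyEq h2 (convex_ball _ _).isPreconnected hw hE'w
    have h4 : E' =ᶠ[𝓝 v] E := by
      filter_upwards [isOpen_ball.mem_nhds hv] with x hx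
      exact h3 hx
    have hvW := hδ's (ball_subset_ball (min_le_right _ _) hv)
    exact hR.congr v E' E ⟨hB hvW.1, hvW.2⟩ (hE'R v (ball_subset_ball (min_le_left _ _) hv)) h4
  filter_upwards [isOpen_ball.mem_nhds hz'] with w hw hwU
  exact hall w ⟨hw, hwU⟩

end Pool.Agent.Helper6.SH.PRPR
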