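import Pool.Agent.Helper6.SH.Stm

/-!
# RBC: combinations of abelian integrals with algebroid coefficients (helper22)
-/

set_option autoImplicit false

open Complex MeasureTheory Metric Set Filter Topology ComplexConjugate

namespace Pool.Agent.Helper6.SH.RBC

open Pool.Agent.E8helper32.SA (per per_re exp_add_per eqOn_convex)
open Pool.Agent.Y245.SC

/-- the strip -/
def St (t0 ε : ℝ) : Set ℂ := {τ | |τ.re - t0| < ε}

theorem St_open (t0 ε : ℝ) : IsOpen (St t0 ε) :=
  isOpen_lt ((continuous_re.sub continuous_const).abs) continuous_const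

theorem St_conv (t0 ε : ℝ) : Convex ℝ (St t0 ε) := by
  have : St t0 ε = {τ : ℂ | t0 - ε < τ.re} ∩ {τ : ℂ | τ.re < t0 + ε} := by
    ext τ
    change |τ.re - t0| < ε ↔ t0 - ε < τ.re ∧ τ.re < t0 + ε
    rw [abs_lt]
    constructor <;> rintro ⟨h1, h2⟩ <;> constructor <;> linarith
  rw [this]
  exact (convex_halfSpace_re_gt _).inter (convex_halfSpace_re_lt _)

/-- primitives in convex open sets -/
theorem prim {S : Set ℂ} {D : ℂ → ℂ} (hS : IsOpen S) (hC : Convex ℝ S)
    (hD : DifferentiableOn ℂ D S) {τ0 : ℂ} (h0 : τ0 ∈ S) (b : ℂ) :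
    ∃ P : ℂ → ℂ, P τ0 = b ∧ ∀ τ ∈ S, HasDerivAt P (D τ) τ := by
  obtain ⟨-, h2⟩ := t_SEG S D hS hC hD
  exact ⟨fun τ => b + seg D τ0 τ, by unfold seg; simp, fun τ hτ => (h2 τ0 h0 τ hτ).const_add b⟩

/-- two functions with the same derivative near a point -/
theorem eq_of_deriv {f g f' : ℂ → ℂ} {x : ℂ} (hf : ∀ᶠ t in 𝓝 x, HasDerivAt f (f' t) t)
    (hg : ∀ᶠ t in 𝓝 x, HasDerivAt g (f' t) t) (h : f x = g x) : f =ᶠ[𝓝 x] g := by
  obtain ⟨ε, hε, h1⟩ := Metric.eventually_nhds_iff_ball.1 (hf.and hg)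
  have h2 := isOpen_ball.eqOn_of_deriv_eq (convex_ball x ε).isPreconnected
    (fun t ht => (h1 t ht).1.differentiableAt.differentiableWithinAt)
    (fun t ht => (h1 t ht).2.differentiableAt.differentiableWithinAt)
    (fun t ht => by rw [(h1 t ht).1.deriv, (h1 t ht).2.deriv]) (mem_ball_self hε) h
  filter_upwards [isOpen_ball.mem_nhds (mem_ball_self (x := x) hε)] with w hw
  exact h2 hw

theorem AG.congr {d : ℕ} {c : ℕ → ℂ → ℂ} {w : ℂ} {u v : ℂ → ℂ} (h : AG d c w u)
    (huv : u =ᶠ[𝓝 w] v) : AG d c w v := by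
  refine ⟨h.1.congr huv, ?_⟩
  filter_upwards [h.2, huv] with x h1 h2
  rw [← h2]
  exact h1

theorem per_dvd {t0 ε : ℝ} {F : ℂ → ℂ} {N T : ℕ}
    (h : ∀ τ : ℂ, |τ.re - t0| < ε → F (τ + per N) = F τ)
    (hd : N ∣ T) : ∀ τ : ℂ, |τ.re - t0| < ε → F (τ + per T) = F τ := by
  obtain ⟨k, rfl⟩ := hd
  intro τ hτ
  induction k with
  | zero => simp [per]
  | succ k ih =>
    have e : τ + per (N * (k + 1)) = (τ + per (N * k)) + per N := by
      unfold per
      push_cast
      ring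
    rw [e, h _ (by rw [add_re, per_re, add_zero]; exact hτ), ih]

theorem main : S_ALGX → S_ALGC → S_RBC := by
  intro hX hC B U m dh ch dI cI hB hU hA hsh hsI
  have hW : IsOpen (B ∩ U) := hB.inter hU
  refine ⟨hU, hA, ?_, ?_, ?_⟩
  · rintro w f g - ⟨h, J, h1, h2, h3⟩ hfg
    exact ⟨h, J, h1, h2, hfg.symm.trans h3⟩
  · intro y hy
    have e1 : ∀ᶠ δ in 𝓝[>] (0 : ℝ), ∀ i, ball y δ ⊆ B ∩ U ∧ ∀ w ∈ ball y δ, ∀ u : ℂ → ℂ,
        AG (dh i) (ch i) w u → ∃ E : ℂ → ℂ, DifferentiableOn ℂ E (ball y δ) ∧ E =ᶠ[𝓝 w] u ∧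
          ∀ w' ∈ ball y δ, AG (dh i) (ch i) w' E :=
      eventually_all.2 fun i => hX _ _ _ y hW (hsh i) hy
    have e2 : ∀ᶠ δ in 𝓝[>] (0 : ℝ), ∀ i, ball y δ ⊆ B ∩ U ∧ ∀ w ∈ ball y δ, ∀ u : ℂ → ℂ,
        AG (dI i) (cI i) w u → ∃ E : ℂ → ℂ, DifferentiableOn ℂ E (ball y δ) ∧ E =ᶠ[𝓝 w] u ∧
          ∀ w' ∈ ball y δ, AG (dI i) (cI i) w' E :=
      eventually_all.2 fun i => hX _ _ _ y hW (hsI i) hy
    obtain ⟨δ, ⟨h1, h2⟩, h3⟩ := ((e1.and e2).and self_mem_nhdsWithin).exists
    refine ⟨δ, h3, (h1 0).1, ?_⟩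
    rintro w hw f ⟨h, J, hh, hJ, hf⟩
    choose E hE1 hE2 hE3 using fun i => (h1 i).2 w hw (h i) (hh i)
    choose K hK1 hK2 hK3 using fun i => (h2 i).2 w hw (deriv (J i)) (hJ i).2
    choose P hP0 hP using fun i => prim isOpen_ball (convex_ball y δ) (hK1 i) hw (J i w)
    have hPJ : ∀ i, P i =ᶠ[𝓝 w] J i := by
      intro i
      refine eq_of_deriv (f' := K i) ?_ ?_ (hP0 i)
      · filter_upwards [isOpen_ball.mem_nhds hw] with t ht
        exact hP i t ht
      · filter_upwards [analyticAt_iff_eventually_differentiableAt.1 (hJ i).1, hK2 i] with t ht1 ht2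
        rw [ht2]
        exact ht1.hasDerivAt
    have hPd : ∀ i, DifferentiableOn ℂ (P i) (ball y δ) :=
      fun i t ht => (hP i t ht).differentiableAt.differentiableWithinAt
    refine ⟨fun v => E 0 v + ∑ i : Fin m, E i.succ v * P i v, ?_, ?_, ?_⟩
    · exact (hE1 0).add (DifferentiableOn.fun_sum fun i _ => (hE1 i.succ).mul (hPd i))
    · have e3 : ∀ᶠ v in 𝓝 w, ∀ i : Fin m, P i v = J i v := eventually_all.2 hPJ
      have e4 : ∀ᶠ v in 𝓝 w, ∀ i : Fin (m + 1), E i v = h i v := eventually_all.2 hE2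
      filter_upwards [e3, e4, hf] with v a1 a2 a3
      rw [a3, a2 0]
      congr 1
      exact Finset.sum_congr rfl fun i _ => by rw [a1 i, a2 i.succ]
    · intro w' hw'
      refine ⟨E, P, fun i => hE3 i w' hw', fun i => ⟨?_, ?_⟩, EventuallyEq.rfl⟩
      · exact (hPd i).analyticAt (isOpen_ball.mem_nhds hw')
      · refine AG.congr (hK3 i w' hw') ?_
        filter_upwards [isOpen_ball.mem_nhds hw'] with t ht
        exact (hP i t ht).deriv.symm
  · intro x t0 ε G hε hτ hG hR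
    have hSo := St_open t0 ε
    have hSc := St_conv t0 ε
    have h0' : |((t0 : ℂ)).re - t0| < ε := by simpa using hε
    have h0 : (t0 : ℂ) ∈ St t0 ε := h0'
    obtain ⟨f, ⟨h, J, hh, hJ, hf⟩, hGf⟩ := hR t0 h0'
    choose V hV1 hV2 N hN hVN using fun i => hC _ _ _ x t0 ε t0 (h i) hW (hsh i) hε hτ h0' (hh i)
    choose K hK1 hK2 M hM hKM using
      fun i => hC _ _ _ x t0 ε t0 (deriv (J i)) hW (hsI i) hε hτ h0' (hJ i).2
    obtain ⟨T, hT, hNT, hMT⟩ : ∃ T : ℕ, 0 < T ∧ (∀ i, N i ∣ T) ∧ ∀ i, M i ∣ T := by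
      refine ⟨(∏ i, N i) * ∏ i, M i, ?_, fun i => ?_, fun i => ?_⟩
      · exact Nat.mul_pos (Finset.prod_pos fun i _ => hN i) (Finset.prod_pos fun i _ => hM i)
      · exact (Finset.dvd_prod_of_mem N (Finset.mem_univ i)).mul_right _
      · exact (Finset.dvd_prod_of_mem M (Finset.mem_univ i)).mul_left _
    have hVT : ∀ i, ∀ τ : ℂ, |τ.re - t0| < ε → V i (τ + per T) = V i τ :=
      fun i => per_dvd (hVN i) (hNT i)
    have hKT : ∀ i, ∀ τ : ℂ, |τ.re - t0| < ε → K i (τ + per T) = K i τ :=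
      fun i => per_dvd (hKM i) (hMT i)
    have hsh' : ∀ τ : ℂ, |τ.re - t0| < ε → |(τ + per T).re - t0| < ε := by
      intro τ h1
      rw [add_re, per_re, add_zero]
      exact h1
    choose P hP0 hP using fun i => prim (D := fun τ => K i τ * exp τ) hSo hSc
      ((hK1 i).mul differentiable_exp.differentiableOn) h0 (J i (x + exp t0))
    have hPd : ∀ i, DifferentiableOn ℂ (P i) (St t0 ε) :=
      fun i t ht => (hP i t ht).differentiableAt.differentiableWithinAt
    have hcont : Tendsto (fun t : ℂ => x + exp t) (𝓝 (t0 : ℂ)) (𝓝 (x + exp t0)) :=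
      (continuous_const.add continuous_exp).continuousAt
    have hPJ : ∀ i, P i =ᶠ[𝓝 (t0 : ℂ)] fun t => J i (x + exp t) := by
      intro i
      refine eq_of_deriv (f' := fun τ => K i τ * exp τ) ?_ ?_ (hP0 i)
      · filter_upwards [hSo.mem_nhds h0] with t ht
        exact hP i t ht
      · filter_upwards [hcont.eventually (analyticAt_iff_eventually_differentiableAt.1 (hJ i).1),
          hK2 i] with t ht1 ht2
        rw [ht2]
        exact ht1.hasDerivAt.comp t ((hasDerivAt_exp t).const_add x)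
    have hGF : EqOn G (fun τ => V 0 τ + ∑ i : Fin m, V i.succ τ * P i τ) (St t0 ε) := by
      refine eqOn_convex hSc hSo hG ?_ h0 ?_
      · exact (hV1 0).add (DifferentiableOn.fun_sum fun i _ => (hV1 i.succ).mul (hPd i))
      · have e3 : ∀ᶠ t in 𝓝 (t0 : ℂ), ∀ i : Fin m, P i t = J i (x + exp t) :=
          eventually_all.2 hPJ
        have e4 : ∀ᶠ t in 𝓝 (t0 : ℂ), ∀ i : Fin (m + 1), V i t = h i (x + exp t) :=
          eventually_all.2 hV2
        filter_upwards [e3, e4, hGf, hcont.eventually hf] with t a1 a2 a3 a4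
        rw [a3, a4, a2 0]
        congr 1
        exact Finset.sum_congr rfl fun i _ => by rw [a1 i, a2 i.succ]
    -- the periods
    have hPT : ∀ i, ∃ C : ℂ, ∀ τ : ℂ, |τ.re - t0| < ε → P i (τ + per T) = P i τ + C := by
      intro i
      refine ⟨P i (t0 + per T) - P i t0, fun τ h1 => ?_⟩
      have h2 : EqOn (fun τ => P i (τ + per T)) (fun τ => P i τ + (P i (t0 + per T) - P i t0))
          (St t0 ε) := by
        have b1 : ∀ τ ∈ St t0 ε, HasDerivAt (fun τ => P i (τ + per T)) (K i τ * exp τ) τ := by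
          intro τ h3
          have := (hP i (τ + per T) (hsh' τ h3)).comp_add_const τ (per T)
          rw [hKT i τ h3, exp_add_per] at this
          exact this
        have b2 : ∀ τ ∈ St t0 ε, HasDerivAt (fun τ => P i τ + (P i (t0 + per T) - P i t0))
            (K i τ * exp τ) τ := fun τ h3 => (hP i τ h3).add_const _
        refine hSo.eqOn_of_deriv_eq hSc.isPreconnected
          (fun t ht => (b1 t ht).differentiableAt.differentiableWithinAt)
          (fun t ht => (b2 t ht).differentiableAt.differentiableWithinAt)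
          (fun t ht => by rw [(b1 t ht).deriv, (b2 t ht).deriv]) h0 ?_
        ring
      exact h2 h1
    choose C hC' using hPT
    refine ⟨T, 1, 0, hT, one_ne_zero, fun τ h1 => ?_⟩
    have h2 := hsh' τ h1
    have h3 := hsh' _ h2
    have g0 := hGF h1
    have g1 := hGF h2
    have g2 := hGF h3
    simp only at g0 g1 g2
    rw [g0, g1, g2]
    rw [hVT 0 _ h2, hVT 0 _ h1]
    have s1 : ∀ i : Fin m, V i.succ (τ + per T) * P i (τ + per T) =
        V i.succ τ * P i τ + V i.succ τ * C i := by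
      intro i
      rw [hVT _ _ h1, hC' i τ h1]
      ring
    have s2 : ∀ i : Fin m, V i.succ (τ + per T + per T) * P i (τ + per T + per T) =
        V i.succ τ * P i τ + V i.succ τ * C i + V i.succ τ * C i := by
      intro i
      rw [hVT _ _ h2, hVT _ _ h1, hC' i _ h2, hC' i τ h1]
      ring
    rw [Finset.sum_congr rfl fun i _ => s1 i, Finset.sum_congr rfl fun i _ => s2 i]
    rw [Finset.sum_add_distrib, Finset.sum_add_distrib]
    ring

end Pool.Agent.Helper6.SH.RBC
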