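import Pool.Agent.Helper6.SH.Stm
import Pool.Agent.Helper6.SG.SOL

/-!
# RDC: the solutions of linear equations with algebroid coefficients (helper14)
-/

set_option autoImplicit false

open Complex MeasureTheory Metric Set Filter Topology ComplexConjugate

namespace Pool.Agent.Helper6.SH.RDC

open Pool.Agent.E8helper32.SA (per)
open Pool.Agent.Helper6.SF (Ev Ev')

/-- the strip -/
def St (t0 ε : ℝ) : Set ℂ := {τ | |τ.re - t0| < ε}

theorem st_open (t0 ε : ℝ) : IsOpen (St t0 ε) :=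
  isOpen_lt ((Complex.continuous_re.sub continuous_const).abs) continuous_const

theorem st_convex (t0 ε : ℝ) : Convex ℝ (St t0 ε) := by
  have h : St t0 ε = Complex.reLm ⁻¹' (ball t0 ε) := by
    ext τ
    rw [mem_preimage, mem_ball, Real.dist_eq]
    exact Iff.rfl
  rw [h]
  exact (convex_ball t0 ε).linear_preimage Complex.reLm

theorem per_re (N : ℕ) : (per N).re = 0 := by
  unfold per
  simp

theorem exp_per (N : ℕ) (τ : ℂ) : exp (τ + per N) = exp τ := by
  unfold per
  exact exp_periodic.nat_mul N τ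

theorem st_shift {t0 ε : ℝ} {τ : ℂ} (N : ℕ) (h : τ ∈ St t0 ε) : τ + per N ∈ St t0 ε := by
  have h' : |τ.re - t0| < ε := h
  change |(τ + per N).re - t0| < ε
  rw [add_re, per_re, add_zero]
  exact h'

theorem st_unshift {t0 ε : ℝ} {τ : ℂ} (N : ℕ) (h : τ ∈ St t0 ε) : τ - per N ∈ St t0 ε := by
  have h' : |τ.re - t0| < ε := h
  change |(τ - per N).re - t0| < ε
  rw [sub_re, per_re, sub_zero]
  exact h'

theorem period {V : ℂ → ℂ} {t0 ε : ℝ} {N : ℕ} (h : ∀ τ ∈ St t0 ε, V (τ + per N) = V τ) (m : ℕ) :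
    ∀ τ ∈ St t0 ε, V (τ + per (N * m)) = V τ := by
  induction m with
  | zero =>
    intro τ _
    have : per (N * 0) = 0 := by unfold per; simp
    rw [this, add_zero]
  | succ m ih =>
    intro τ hτ
    have : per (N * (m + 1)) = per (N * m) + per N := by
      unfold per
      push_cast
      ring
    rw [this, ← add_assoc, h _ (st_shift _ hτ), ih τ hτ]

/-- two solutions of the same homogeneous equation are proportional -/
theorem prop_sol {S : Set ℂ} (hS : IsOpen S) (hc : Convex ℝ S) {q V W : ℂ → ℂ}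
    (hV : ∀ τ ∈ S, HasDerivAt V (q τ * V τ) τ) (hW : ∀ τ ∈ S, HasDerivAt W (q τ * W τ) τ)
    {τ1 : ℂ} (h1 : τ1 ∈ S) (hne : V τ1 ≠ 0) : ∀ τ ∈ S, W τ = W τ1 / V τ1 * V τ := by
  have hVc : ContinuousAt V τ1 := (hV τ1 h1).continuousAt
  obtain ⟨r, hr, hb⟩ := Metric.eventually_nhds_iff_ball.1
    ((hVc.eventually_ne hne).and (hS.mem_nhds h1))
  have hq : ∀ τ ∈ ball τ1 r, HasDerivAt (fun τ => W τ / V τ) 0 τ := by
    intro τ hτ
    have h2 := (hW τ (hb τ hτ).2).div (hV τ (hb τ hτ).2) (hb τ hτ).1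
    have h3 : (q τ * W τ * V τ - W τ * (q τ * V τ)) / V τ ^ 2 = 0 := by
      rw [div_eq_zero_iff]
      left
      ring
    rw [h3] at h2
    exact h2
  have hcst : ∀ τ ∈ ball τ1 r, W τ / V τ = W τ1 / V τ1 := by
    intro τ hτ
    exact isOpen_ball.is_const_of_deriv_eq_zero (convex_ball τ1 r).isPreconnected
      (f := fun τ => W τ / V τ) (fun w hw => (hq w hw).differentiableAt.differentiableWithinAt)
      (fun w hw => (hq w hw).deriv) hτ (mem_ball_self hr)
  have hVd : DifferentiableOn ℂ V S := fun w hw => (hV w hw).differentiableAt.differentiableWithinAt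
  have hWd : DifferentiableOn ℂ W S := fun w hw => (hW w hw).differentiableAt.differentiableWithinAt
  have hev : W =ᶠ[𝓝 τ1] fun τ => W τ1 / V τ1 * V τ := by
    filter_upwards [isOpen_ball.mem_nhds (mem_ball_self hr)] with τ hτ
    rw [← hcst τ hτ, div_mul_cancel₀ _ (hb τ hτ).1]
  have h5 := (hWd.analyticOnNhd hS).eqOn_of_preconnected_of_eventuallyEq
    ((hVd.const_mul (W τ1 / V τ1)).analyticOnNhd hS) hc.isPreconnected h1 hev
  exact fun τ hτ => h5 hτ

/-- the monodromy of the solutions of a linear equation with periodic coefficients -/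
theorem lin {t0 ε : ℝ} {F H K : ℂ → ℂ} {N : ℕ}
    (hH : ∀ τ ∈ St t0 ε, H (τ + per N) = H τ) (hK : ∀ τ ∈ St t0 ε, K (τ + per N) = K τ)
    (hF : ∀ τ ∈ St t0 ε, HasDerivAt F (exp τ * (H τ * F τ + K τ)) τ) :
    ∃ κ : ℂ, κ ≠ 0 ∧ ∀ τ ∈ St t0 ε,
      F (τ + per N + per N) - F (τ + per N) = κ * (F (τ + per N) - F τ) := by
  obtain ⟨V, hVd⟩ : ∃ V : ℂ → ℂ, V = fun τ => F (τ + per N) - F τ := ⟨_, rfl⟩
  obtain ⟨q, hqd⟩ : ∃ q : ℂ → ℂ, q = fun τ => exp τ * H τ := ⟨_, rfl⟩
  have hV : ∀ τ ∈ St t0 ε, HasDerivAt V (q τ * V τ) τ := by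
    intro τ hτ
    have h1 : HasDerivAt (fun τ => F (τ + per N))
        (exp (τ + per N) * (H (τ + per N) * F (τ + per N) + K (τ + per N))) τ :=
      (hF _ (st_shift N hτ)).comp_add_const τ (per N)
    have h2 := h1.sub (hF τ hτ)
    rw [exp_per, hH τ hτ, hK τ hτ] at h2
    have h3 : exp τ * (H τ * F (τ + per N) + K τ) - exp τ * (H τ * F τ + K τ) = q τ * V τ := by
      rw [hVd, hqd]
      ring
    rw [h3] at h2
    rw [hVd]
    rw [hVd] at h2
    exact h2
  have hW : ∀ τ ∈ St t0 ε, HasDerivAt (fun τ => V (τ + per N)) (q τ * V (τ + per N)) τ := by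
    intro τ hτ
    have h1 : HasDerivAt (fun τ => V (τ + per N)) (q (τ + per N) * V (τ + per N)) τ :=
      (hV _ (st_shift N hτ)).comp_add_const τ (per N)
    have h2 : q (τ + per N) = q τ := by
      rw [hqd]
      show exp (τ + per N) * H (τ + per N) = exp τ * H τ
      rw [exp_per, hH τ hτ]
    rw [h2] at h1
    exact h1
  have hgoal : ∀ κ : ℂ, (∀ τ ∈ St t0 ε, V (τ + per N) = κ * V τ) → ∀ τ ∈ St t0 ε,
      F (τ + per N + per N) - F (τ + per N) = κ * (F (τ + per N) - F τ) := by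
    intro κ h τ hτ
    have h1 := h τ hτ
    rw [hVd] at h1
    exact h1
  by_cases h0 : ∀ τ ∈ St t0 ε, V τ = 0
  · refine ⟨1, one_ne_zero, hgoal 1 fun τ hτ => ?_⟩
    rw [h0 τ hτ, h0 _ (st_shift N hτ), mul_zero]
  · push Not at h0
    obtain ⟨τ1, h1, hne⟩ := h0
    have h2 := prop_sol (st_open t0 ε) (st_convex t0 ε) hV hW h1 hne
    refine ⟨V (τ1 + per N) / V τ1, ?_, hgoal _ h2⟩
    intro h3
    have h4 := h2 _ (st_unshift N h1)
    rw [h3, zero_mul, sub_add_cancel] at h4
    exact hne h4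

/-- a differential equation holds everywhere if it holds near a point -/
theorem glob {S : Set ℂ} (hS : IsOpen S) (hp : IsPreconnected S) {e F H K : ℂ → ℂ}
    (he : DifferentiableOn ℂ e S) (hF : DifferentiableOn ℂ F S) (hH : DifferentiableOn ℂ H S)
    (hK : DifferentiableOn ℂ K S) {z : ℂ} (hz : z ∈ S)
    (h : ∀ᶠ v in 𝓝 z, deriv F v = e v * (H v * F v + K v)) :
    ∀ v ∈ S, deriv F v = e v * (H v * F v + K v) := by
  have h5 := ((hF.deriv hS).analyticOnNhd hS).eqOn_of_preconnected_of_eventuallyEq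
    ((he.mul ((hH.mul hF).add hK)).analyticOnNhd hS) hp hz h
  exact fun v hv => h5 hv

/-- the equation in the coordinate `τ` -/
theorem near {x τ0 : ℂ} {f h k F H K : ℂ → ℂ} (hf : AnalyticAt ℂ f (x + exp τ0))
    (ho : ∀ᶠ v in 𝓝 (x + exp τ0), deriv f v = h v * f v + k v)
    (hF : F =ᶠ[𝓝 τ0] fun t => f (x + exp t)) (hH : H =ᶠ[𝓝 τ0] fun t => h (x + exp t))
    (hK : K =ᶠ[𝓝 τ0] fun t => k (x + exp t)) :
    ∀ᶠ t in 𝓝 τ0, deriv F t = exp t * (H t * F t + K t) := by
  have hcont : Tendsto (fun t => x + exp t) (𝓝 τ0) (𝓝 (x + exp τ0)) :=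
    (continuous_const.add continuous_exp).continuousAt
  have h1 : ∀ᶠ t in 𝓝 τ0, DifferentiableAt ℂ f (x + exp t) :=
    hcont.eventually (analyticAt_iff_eventually_differentiableAt.1 hf)
  filter_upwards [h1, hcont.eventually ho, eventually_eventually_nhds.2 hF, hH, hK]
    with t h2 h3 h4 h5 h6
  have h7 : F =ᶠ[𝓝 t] fun t => f (x + exp t) := h4
  have h8 : HasDerivAt (fun t => x + exp t) (exp t) t := (hasDerivAt_exp t).const_add x
  have h9 : HasDerivAt (fun t => f (x + exp t)) (deriv f (x + exp t) * exp t) t :=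
    HasDerivAt.comp (h₂ := f) (h := fun t => x + exp t) t h2.hasDerivAt h8
  rw [h7.deriv_eq, h9.deriv, h3, h5, h6, h7.eq_of_nhds]
  ring

/-- the derivative in the coordinate `τ` -/
theorem near_der {x τ0 : ℂ} {f G : ℂ → ℂ} (hf : AnalyticAt ℂ f (x + exp τ0))
    (hG : G =ᶠ[𝓝 τ0] fun t => f (x + exp t)) :
    (fun t => deriv G t * exp (-t)) =ᶠ[𝓝 τ0] fun t => deriv f (x + exp t) := by
  have hcont : Tendsto (fun t => x + exp t) (𝓝 τ0) (𝓝 (x + exp τ0)) :=
    (continuous_const.add continuous_exp).continuousAt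
  have h1 : ∀ᶠ t in 𝓝 τ0, DifferentiableAt ℂ f (x + exp t) :=
    hcont.eventually (analyticAt_iff_eventually_differentiableAt.1 hf)
  filter_upwards [h1, eventually_eventually_nhds.2 hG] with t h2 h4
  have h7 : G =ᶠ[𝓝 t] fun t => f (x + exp t) := h4
  have h8 : HasDerivAt (fun t => x + exp t) (exp t) t := (hasDerivAt_exp t).const_add x
  have h9 : HasDerivAt (fun t => f (x + exp t)) (deriv f (x + exp t) * exp t) t :=
    HasDerivAt.comp (h₂ := f) (h := fun t => x + exp t) t h2.hasDerivAt h8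
  rw [h7.deriv_eq, h9.deriv, mul_assoc, ← exp_add, add_neg_cancel, exp_zero, mul_one]

theorem main (hX : S_ALGX) (hC : S_ALGC) : S_RDC := by
  intro B U j d1 c1 d2 c2 hB hU hA h1 h2
  have hW : IsOpen (B ∩ U) := hB.inter hU
  refine ⟨hU, hA, ?_, ?_, ?_⟩
  · -- germs
    rintro w f g hw ⟨hf, h, k, hh, hk, hode⟩ hfg
    refine ⟨hf.congr hfg, h, k, hh, hk, ?_⟩
    have h3 : ∀ᶠ v in 𝓝 w, f =ᶠ[𝓝 v] g := eventually_eventually_nhds.2 hfg
    filter_upwards [hode, h3] with v h4 h5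
    split_ifs at h4 ⊢ with hj
    · rw [← h5.deriv_eq, ← h5.eq_of_nhds]
      exact h4
    · rw [← h5.deriv.deriv_eq, ← h5.deriv_eq]
      exact h4
  · -- small discs
    intro y hy
    obtain ⟨δ, ⟨⟨hs1, hδ1⟩, ⟨hs2, hδ2⟩⟩, hδ0⟩ := (((hX _ d1 c1 y hW h1 hy).and
      (hX _ d2 c2 y hW h2 hy)).and self_mem_nhdsWithin).exists
    refine ⟨δ, hδ0, hs1, fun w hw f hf => ?_⟩
    obtain ⟨hfa, h, k, hh, hk, hode⟩ := hf
    obtain ⟨H, hHd, hHh, hHA⟩ := hδ1 w hw h hh
    obtain ⟨K, hKd, hKk, hKA⟩ := hδ2 w hw k hk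
    have hpc : IsPreconnected (ball y δ) := (convex_ball y δ).isPreconnected
    by_cases hj : j = 0
    · simp only [hj, if_true] at hode
      have he : ∀ᶠ v in 𝓝 w, deriv f v - H v * f v = K v := by
        filter_upwards [hode, hHh, hKk] with v h3 h4 h5
        rw [h3, h4, h5]
        ring
      obtain ⟨E, hE, hEf⟩ := Pool.Agent.Helper6.SG.SOL.sol1 hHd hKd hw hfa he
      have hEo : ∀ v ∈ ball y δ, deriv E v = 1 * (H v * E v + K v) := by
        refine glob isOpen_ball hpc (e := fun _ => 1) (differentiableOn_const _) hE hHd hKd hw ?_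
        filter_upwards [he, eventually_eventually_nhds.2 hEf] with v h3 h4
        have h5 : E =ᶠ[𝓝 v] f := h4
        rw [h5.deriv_eq, h5.eq_of_nhds, ← h3]
        ring
      refine ⟨E, hE, hEf, fun w' hw' => ⟨hE.analyticAt (isOpen_ball.mem_nhds hw'), H, K, hHA w' hw',
        hKA w' hw', ?_⟩⟩
      filter_upwards [isOpen_ball.mem_nhds hw'] with v hv
      rw [if_pos hj, hEo v hv, one_mul]
    · simp only [hj, if_false] at hode
      have he : ∀ᶠ v in 𝓝 w, deriv (deriv f) v - H v * deriv f v = K v := by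
        filter_upwards [hode, hHh, hKk] with v h3 h4 h5
        rw [h3, h4, h5]
        ring
      obtain ⟨E1, hE1, hEf1⟩ := Pool.Agent.Helper6.SG.SOL.sol1 hHd hKd hw hfa.deriv he
      obtain ⟨E, hE, hEf⟩ := Pool.Agent.Helper6.SG.SOL.prim hE1 hw hfa hEf1.symm
      have hEo : ∀ v ∈ ball y δ, deriv (deriv E) v = 1 * (H v * deriv E v + K v) := by
        refine glob isOpen_ball hpc (e := fun _ => 1) (differentiableOn_const _)
          (hE.deriv isOpen_ball) hHd hKd hw ?_
        filter_upwards [he, eventually_eventually_nhds.2 hEf] with v h3 h4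
        have h5 : E =ᶠ[𝓝 v] f := h4
        rw [h5.deriv.deriv_eq, h5.deriv_eq, ← h3]
        ring
      refine ⟨E, hE, hEf, fun w' hw' => ⟨hE.analyticAt (isOpen_ball.mem_nhds hw'), H, K, hHA w' hw',
        hKA w' hw', ?_⟩⟩
      filter_upwards [isOpen_ball.mem_nhds hw'] with v hv
      rw [if_neg hj, hEo v hv, one_mul]
  · -- circles
    intro x t0 ε G hε hst hG hgerm
    have hτ0 : |((t0 : ℂ)).re - t0| < ε := by
      rw [ofReal_re, sub_self, abs_zero]
      exact hε
    obtain ⟨f, ⟨hfa, h, k, hh, hk, hode⟩, hGf⟩ := hgerm t0 hτ0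
    obtain ⟨H, hHd, hHh, N1, hN1, hHp⟩ := hC _ d1 c1 x t0 ε t0 h hW h1 hε hst hτ0 hh
    obtain ⟨K, hKd, hKk, N2, hN2, hKp⟩ := hC _ d2 c2 x t0 ε t0 k hW h2 hε hst hτ0 hk
    have hHN : ∀ τ ∈ St t0 ε, H (τ + per (N1 * N2)) = H τ := period hHp N2
    have hKN : ∀ τ ∈ St t0 ε, K (τ + per (N1 * N2)) = K τ := by
      rw [mul_comm N1 N2]
      exact period hKp N1
    have hpc : IsPreconnected (St t0 ε) := (st_convex t0 ε).isPreconnected
    have hexp : DifferentiableOn ℂ exp (St t0 ε) := differentiable_exp.differentiableOn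
    by_cases hj : j = 0
    · simp only [hj, if_true] at hode
      have hGo : ∀ τ ∈ St t0 ε, deriv G τ = exp τ * (H τ * G τ + K τ) :=
        glob (st_open t0 ε) hpc hexp hG hHd hKd hτ0 (near hfa hode hGf hHh hKk)
      obtain ⟨κ, hκ, hl⟩ := lin hHN hKN (F := G) (fun τ hτ => by
        rw [← hGo τ hτ]
        exact (hG.differentiableAt ((st_open t0 ε).mem_nhds hτ)).hasDerivAt)
      exact ⟨N1 * N2, κ, 0, Nat.mul_pos hN1 hN2, hκ, fun τ hτ => by rw [add_zero]; exact hl τ hτ⟩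
    · simp only [hj, if_false] at hode
      obtain ⟨F, hFd⟩ : ∃ F : ℂ → ℂ, F = fun t => deriv G t * exp (-t) := ⟨_, rfl⟩
      have hF : DifferentiableOn ℂ F (St t0 ε) := by
        rw [hFd]
        exact (hG.deriv (st_open t0 ε)).mul (differentiable_exp.comp differentiable_neg).differentiableOn
      have hFf : F =ᶠ[𝓝 (t0 : ℂ)] fun t => deriv f (x + exp t) := by
        rw [hFd]
        exact near_der hfa hGf
      have hFo : ∀ τ ∈ St t0 ε, deriv F τ = exp τ * (H τ * F τ + K τ) :=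
        glob (st_open t0 ε) hpc hexp hF hHd hKd hτ0 (near hfa.deriv hode hFf hHh hKk)
      obtain ⟨κ, hκ, hl⟩ := lin hHN hKN (F := F) (fun τ hτ => by
        rw [← hFo τ hτ]
        exact (hF.differentiableAt ((st_open t0 ε).mem_nhds hτ)).hasDerivAt)
      -- the derivative of `G`
      have hGd : ∀ τ ∈ St t0 ε, HasDerivAt G (exp τ * F τ) τ := by
        intro τ hτ
        have h3 : exp τ * F τ = deriv G τ := by
          rw [hFd]
          show exp τ * (deriv G τ * exp (-τ)) = deriv G τ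
          rw [mul_comm, mul_assoc, ← exp_add, neg_add_cancel, exp_zero, mul_one]
        rw [h3]
        exact (hG.differentiableAt ((st_open t0 ε).mem_nhds hτ)).hasDerivAt
      have hsh : ∀ τ ∈ St t0 ε, HasDerivAt (fun τ => G (τ + per (N1 * N2)))
          (exp τ * F (τ + per (N1 * N2))) τ := by
        intro τ hτ
        have h3 : HasDerivAt (fun τ => G (τ + per (N1 * N2)))
            (exp (τ + per (N1 * N2)) * F (τ + per (N1 * N2))) τ :=
          (hGd _ (st_shift _ hτ)).comp_add_const τ (per (N1 * N2))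
        rw [exp_per] at h3
        exact h3
      have hsh2 : ∀ τ ∈ St t0 ε, HasDerivAt (fun τ => G (τ + per (N1 * N2) + per (N1 * N2)))
          (exp τ * F (τ + per (N1 * N2) + per (N1 * N2))) τ := by
        intro τ hτ
        have h3 : HasDerivAt (fun τ => G (τ + per (N1 * N2) + per (N1 * N2)))
            (exp (τ + per (N1 * N2)) * F (τ + per (N1 * N2) + per (N1 * N2))) τ :=
          HasDerivAt.comp_add_const (f := fun τ => G (τ + per (N1 * N2))) τ (per (N1 * N2))
            (hsh _ (st_shift _ hτ))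
        rw [exp_per] at h3
        exact h3
      obtain ⟨D, hD⟩ : ∃ D : ℂ → ℂ, D = fun τ => (G (τ + per (N1 * N2) + per (N1 * N2)) -
        G (τ + per (N1 * N2))) - κ * (G (τ + per (N1 * N2)) - G τ) := ⟨_, rfl⟩
      have hDd : ∀ τ ∈ St t0 ε, HasDerivAt D 0 τ := by
        intro τ hτ
        have h3 := ((hsh2 τ hτ).sub (hsh τ hτ)).sub (((hsh τ hτ).sub (hGd τ hτ)).const_mul κ)
        have h4 : exp τ * F (τ + per (N1 * N2) + per (N1 * N2)) - exp τ * F (τ + per (N1 * N2)) -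
            κ * (exp τ * F (τ + per (N1 * N2)) - exp τ * F τ) = 0 := by
          have h5 := hl τ hτ
          linear_combination (exp τ) * h5
        rw [h4] at h3
        rw [hD]
        exact h3
      have hcst : ∀ τ ∈ St t0 ε, D τ = D t0 := fun τ hτ =>
        (st_open t0 ε).is_const_of_deriv_eq_zero hpc (f := D)
          (fun w hw => (hDd w hw).differentiableAt.differentiableWithinAt)
          (fun w hw => (hDd w hw).deriv) hτ hτ0
      refine ⟨N1 * N2, κ, D t0, Nat.mul_pos hN1 hN2, hκ, fun τ hτ => ?_⟩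
      rw [← hcst τ hτ, hD]
      ring

end Pool.Agent.Helper6.SH.RDC
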