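import Pool.Agent.Helper6.SH.Stm

/-!
# SEPA: from a relation to a separable relation
-/

set_option autoImplicit false

open Complex MeasureTheory Metric Set Filter Topology ComplexConjugate

namespace Pool.Agent.Helper6.SH.SEPA

open Pool.Agent.E8helper32.SA (eqOn_convex)
open Pool.Agent.Helper6.SF

theorem main : S_SEPA := by
  intro B U d c z u hBo hBp hU hA hc hcd hz hu hrel
  have hWo : IsOpen (B ∩ U) := hBo.inter hU
  have hWc : IsPreconnected (B ∩ U) := pre_inter Pool.Agent.E8helper36.SQ.conn hBo hBp hA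
  -- a small disc
  obtain ⟨ε, hε, hεs⟩ := Metric.eventually_nhds_iff_ball.1
    ((hu.eventually_analyticAt.and hrel).and (hBo.mem_nhds hz))
  have hεB : ball z ε ⊆ B := fun w hw => (hεs w hw).2
  have hud : DifferentiableOn ℂ u (ball z ε) := fun w hw =>
    (hεs w hw).1.1.differentiableAt.differentiableWithinAt
  obtain ⟨z2, hz2, hz2n⟩ : ∃ z2 ∈ ball z ε, z2 ∉ B \ U := by
    obtain ⟨z2, h2, h3⟩ := (hA.dense_compl ℝ).inter_open_nonempty (ball z ε)
      isOpen_ball ⟨z, mem_ball_self hε⟩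
    exact ⟨z2, h2, h3⟩
  have hz2U : z2 ∈ U := by
    by_contra h3
    exact hz2n ⟨hεB hz2, h3⟩
  obtain ⟨δ, hδ, hδs⟩ := Metric.isOpen_iff.1 (isOpen_ball.inter hU) z2 ⟨hz2, hz2U⟩
  have hVW : ball z2 δ ⊆ B ∩ U := fun w hw => ⟨hεB (hδs hw).1, (hδs hw).2⟩
  obtain ⟨d', c', ρ', hdd, hc', hρ', hcd', hρn, hrel', hsep'⟩ := sep_an hWo hWc isOpen_ball
    (convex_ball z2 δ).isPreconnected hVW ⟨z2, mem_ball_self hδ⟩ hc hcd
    (hud.mono fun w hw => (hδs hw).1)
    (fun w hw => (hεs w (hδs hw).1).1.2 (hδs hw).2)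
  -- the relation near `z`
  have hrel2 : ∀ w ∈ ball z ε ∩ U, Ev d' c' w (u w) = 0 := by
    have hp : IsPreconnected (ball z ε ∩ U) := pre_inter Pool.Agent.E8helper36.SQ.conn isOpen_ball
      (convex_ball z ε).isPreconnected (hA.mono (sdiff_subset_sdiff_left hεB))
    have ha : AnalyticOnNhd ℂ (fun w => Ev d' c' w (u w)) (ball z ε ∩ U) := by
      intro w hw
      exact ev_an (fun k _ => (hc' k).analyticAt (hWo.mem_nhds ⟨hεB hw.1, hw.2⟩)) (hεs w hw.1).1.1
    have h1 := ha.eqOn_zero_of_preconnected_of_eventuallyEq_zero hp (z₀ := z2) ⟨hz2, hz2U⟩ (by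
      filter_upwards [isOpen_ball.mem_nhds (mem_ball_self hδ)] with w hw
      exact hrel' w hw)
    exact fun w hw => h1 hw
  -- the new set
  set U' : Set ℂ := {w | w ∈ B ∩ U ∧ c' d' w ≠ 0 ∧ ρ' w ≠ 0} with hU'
  have hU'o : IsOpen U' := by
    rw [isOpen_iff_mem_nhds]
    rintro w ⟨h1, h2, h3⟩
    have c1 : ContinuousAt (c' d') w := ((hc' d').differentiableAt (hWo.mem_nhds h1)).continuousAt
    have c2 : ContinuousAt ρ' w := (hρ'.differentiableAt (hWo.mem_nhds h1)).continuousAt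
    filter_upwards [hWo.mem_nhds h1, c1.eventually_ne h2, c2.eventually_ne h3] with v h4 h5 h6
    exact ⟨h4, h5, h6⟩
  have hA' : (B \ U').Countable := by
    refine ((hA.union (zeros_countable hWo hWc (hc' d') hcd')).union
      (zeros_countable hWo hWc hρ' hρn)).mono ?_
    rintro w ⟨h1, h2⟩
    by_cases h3 : w ∈ U
    · by_cases h4 : c' d' w = 0
      · exact Or.inl (Or.inr ⟨⟨h1, h3⟩, h4⟩)
      · by_cases h5 : ρ' w = 0
        · exact Or.inr ⟨⟨h1, h3⟩, h5⟩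
        · exact absurd ⟨⟨h1, h3⟩, h4, h5⟩ h2
    · exact Or.inl (Or.inl ⟨h1, h3⟩)
  have hU's : B ∩ U' ⊆ B ∩ U := fun w hw => hw.2.1
  refine ⟨d', c', U', fun w hw => hw.1.2, hU'o, hA', ⟨fun k _ => (hc' k).mono hU's,
    fun w hw => hw.2.2.1, fun w hw => hsep' w hw.2.1 hw.2.2.2⟩, ?_⟩
  filter_upwards [isOpen_ball.mem_nhds (mem_ball_self (x := z) hε)] with w hw hwU
  refine ⟨(hεs w hw).1.1, ?_⟩
  filter_upwards [(isOpen_ball.inter hU).mem_nhds ⟨hw, hwU.1.2⟩] with v hv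
  exact hrel2 v hv

end Pool.Agent.Helper6.SH.SEPA
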