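import Pool.Agent.Helper6.SH.Fin
import Pool.Agent.Helper6.SH.ALGX
import Pool.Agent.Helper6.SH.ALGC
import Pool.Agent.Helper6.SH.SEPA
import Pool.Agent.Helper6.SH.RBC
import Pool.Agent.Helper6.SH.RDC
import Pool.Agent.Helper6.SH.ISOR
import Pool.Agent.Helper6.SH.LOCR
import Pool.Agent.Helper6.SH.PRPR

/-!
# The modules together
-/

namespace Pool.Agent.Helper6.SH

theorem p_algc : S_ALGC := ALGC.main ALGX.main
theorem p_sepa : S_SEPA := SEPA.main
theorem p_rbc : S_RBC := RBC.main ALGX.main p_algc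
theorem p_rdc : S_RDC := RDC.main ALGX.main p_algc
theorem p_locr : S_LOCR := LOCR.main PRPR.main (ISOR.main PRPR.main)
theorem p_glbr : S_GLBR := LOCR.glob PRPR.main p_locr

end Pool.Agent.Helper6.SH
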