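import Pool.Agent.Helper6.SH.Stm

/-!
# Assembly: combinations of abelian integrals, first order linear equations
-/

set_option autoImplicit false

open Complex MeasureTheory Metric Set Filter Topology ComplexConjugate

namespace Pool.Agent.Helper6.SH

open Pool.Agent.Results.MP_83fd13_an.BranchSingularities
open Pool.Agent.Helper6.SF (Ev Ev' BCusp)
open Pool.Agent.Helper6.SG (SData)

/-- algebroid germs -/
def Alg (B : Set ℂ) (z : ℂ) (u : ℂ → ℂ) : Prop :=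
  AnalyticAt ℂ u z ∧ ∃ (U : Set ℂ) (d : ℕ) (c : ℕ → ℂ → ℂ),
    (IsOpen U ∧ (B \ U).Countable ∧ (∀ k ≤ d, DifferentiableOn ℂ (c k) (B ∩ U)) ∧
      ∃ w ∈ B ∩ U, c d w ≠ 0) ∧ ∀ᶠ w in 𝓝 z, w ∈ U → Ev d c w (u w) = 0

/-- a finite family of algebroid germs: separable relations off a common countable set -/
theorem fam (hS : S_SEPA) {ι : Type} [Finite ι] {B : Set ℂ} {z : ℂ} {u : ι → ℂ → ℂ}
    (hB : IsOpen B) (hBc : IsPreconnected B) (hz : z ∈ B) (h : ∀ i, Alg B z (u i)) :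
    ∃ (U : Set ℂ) (d : ι → ℕ) (c : ι → ℕ → ℂ → ℂ), IsOpen U ∧ (B \ U).Countable ∧
      (∀ i, Sep (B ∩ U) (d i) (c i)) ∧ ∀ᶠ w in 𝓝 z, w ∈ U → ∀ i, AG (d i) (c i) w (u i) := by
  have h1 : ∀ i, ∃ (d' : ℕ) (c' : ℕ → ℂ → ℂ) (U' : Set ℂ), IsOpen U' ∧ (B \ U').Countable ∧
      Sep (B ∩ U') d' c' ∧ ∀ᶠ w in 𝓝 z, w ∈ U' → AG d' c' w (u i) := by
    intro i
    obtain ⟨h2, U, d, c, ⟨h3, h4, h5, h6⟩, h7⟩ := h i
    obtain ⟨d', c', U', -, a2, a3, a4, a5⟩ := hS B U d c z (u i) hB hBc h3 h4 h5 h6 hz h2 h7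
    exact ⟨d', c', U', a2, a3, a4, a5⟩
  choose d c U a1 a2 a3 a4 using h1
  refine ⟨⋂ i, U i, d, c, isOpen_iInter_of_finite a1, ?_, ?_, ?_⟩
  · rw [diff_iInter]
    exact countable_iUnion a2
  · intro i
    have h2 : B ∩ ⋂ i, U i ⊆ B ∩ U i := inter_subset_inter_right _ (iInter_subset _ _)
    exact ⟨fun k hk => ((a3 i).hc k hk).mono h2, fun w hw => (a3 i).hd w (h2 hw),
      fun w hw => (a3 i).hs w (h2 hw)⟩
  · filter_upwards [eventually_all.2 a4] with w hw hwU i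
    exact hw i (mem_iInter.1 hwU i)

/-- the data of a combination of abelian integrals -/
def Comb (B : Set ℂ) (z : ℂ) (f : ℂ → ℂ) : Prop :=
  ∃ (m : ℕ) (h : Fin (m + 1) → ℂ → ℂ) (J : Fin m → ℂ → ℂ), (∀ i, Alg B z (h i)) ∧
    (∀ i, AnalyticAt ℂ (J i) z ∧ Alg B z (deriv (J i))) ∧
    ∀ᶠ w in 𝓝 z, f w = h 0 w + ∑ i : Fin m, h i.succ w * J i w

/-- the data of a linear equation -/
def Lde (B : Set ℂ) (z : ℂ) (f : ℂ → ℂ) : Prop :=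
  ∃ h k : ℂ → ℂ, Alg B z h ∧ Alg B z k ∧
    ((∀ᶠ w in 𝓝 z, deriv f w = h w * f w + k w) ∨
      ∀ᶠ w in 𝓝 z, deriv (deriv f) w = h w * deriv f w + k w)

theorem class_b (hS : S_SEPA) (hRB : S_RBC) {B : Set ℂ} {z : ℂ} {f : ℂ → ℂ}
    (hB : IsOpen B) (hBc : IsPreconnected B) (hz : z ∈ B) (h : Comb B z f) :
    ∃ (U : Set ℂ) (R : ℂ → (ℂ → ℂ) → Prop), RP B U R ∧ RT U R z f := by
  obtain ⟨m, h, J, h1, h2, h3⟩ := h
  obtain ⟨U, d, c, a1, a2, a3, a4⟩ := fam hS (ι := Fin (m + 1) ⊕ Fin m)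
    (u := Sum.elim h fun i => deriv (J i)) hB hBc hz (by
      rintro (i | i)
      · exact h1 i
      · exact (h2 i).2)
  refine ⟨U, RB m (fun i => d (Sum.inl i)) (fun i => c (Sum.inl i)) (fun i => d (Sum.inr i))
    (fun i => c (Sum.inr i)), hRB B U m _ _ _ _ hB a1 a2 (fun i => a3 _) (fun i => a3 _), ?_⟩
  have h4 : ∀ᶠ w in 𝓝 z, ∀ i, AnalyticAt ℂ (J i) w :=
    eventually_all.2 fun i => (h2 i).1.eventually_analyticAt
  filter_upwards [a4, h4, eventually_eventually_nhds.2 h3] with w b1 b2 b3 hwU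
  exact ⟨h, J, fun i => b1 hwU (Sum.inl i), fun i => ⟨b2 i, b1 hwU (Sum.inr i)⟩, b3⟩

theorem class_d (hS : S_SEPA) (hRD : S_RDC) {B : Set ℂ} {z : ℂ} {f : ℂ → ℂ}
    (hB : IsOpen B) (hBc : IsPreconnected B) (hz : z ∈ B) (hf : AnalyticAt ℂ f z)
    (h : Lde B z f) : ∃ (U : Set ℂ) (R : ℂ → (ℂ → ℂ) → Prop), RP B U R ∧ RT U R z f := by
  obtain ⟨h, k, h1, h2, h3⟩ := h
  obtain ⟨U, d, c, a1, a2, a3, a4⟩ := fam hS (ι := Fin 2) (u := ![h, k]) hB hBc hz (by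
      intro i
      fin_cases i
      · exact h1
      · exact h2)
  rcases h3 with h3 | h3
  · refine ⟨U, RD 0 (d 0) (c 0) (d 1) (c 1), hRD B U 0 _ _ _ _ hB a1 a2 (a3 0) (a3 1), ?_⟩
    filter_upwards [a4, hf.eventually_analyticAt, eventually_eventually_nhds.2 h3]
      with w b1 b2 b3 hwU
    refine ⟨b2, h, k, b1 hwU 0, b1 hwU 1, ?_⟩
    filter_upwards [b3] with v hv
    rw [if_pos rfl]
    exact hv
  · refine ⟨U, RD 1 (d 0) (c 0) (d 1) (c 1), hRD B U 1 _ _ _ _ hB a1 a2 (a3 0) (a3 1), ?_⟩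
    filter_upwards [a4, hf.eventually_analyticAt, eventually_eventually_nhds.2 h3]
      with w b1 b2 b3 hwU
    refine ⟨b2, h, k, b1 hwU 0, b1 hwU 1, ?_⟩
    filter_upwards [b3] with v hv
    rw [if_neg one_ne_zero]
    exact hv

theorem class_all (hS : S_SEPA) (hRB : S_RBC) (hRD : S_RDC) {B : Set ℂ} {z : ℂ} {f : ℂ → ℂ}
    (hB : IsOpen B) (hBc : IsPreconnected B) (hz : z ∈ B) (hf : AnalyticAt ℂ f z)
    (h : Comb B z f ∨ Lde B z f) :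
    ∃ (U : Set ℂ) (R : ℂ → (ℂ → ℂ) → Prop), RP B U R ∧ RT U R z f := by
  rcases h with h | h
  · exact class_b hS hRB hB hBc hz h
  · exact class_d hS hRD hB hBc hz hf h

theorem loc_all (hLOC : S_LOCR) (hS : S_SEPA) (hRB : S_RBC) (hRD : S_RDC) {φ : ℂ → ℂ} {r lam : ℝ}
    {c0 : ℂ} {ρ : ℝ} {z : ℂ} {g : ℂ → ℂ} (hSD : SData φ r lam)
    (hNC : ∀ m : ℕ, ¬ BCusp φ r lam m (ball c0 ρ)) (hB : ∀ w ∈ ball c0 ρ, 1 < ‖w‖)
    (hz : z ∈ ball c0 ρ) (hg : Branch φ r z g) (hga : AnalyticAt ℂ g z)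
    (h : Comb (ball c0 ρ) z g ∨ Lde (ball c0 ρ) z g) :
    ∃ E : ℂ → ℂ, DifferentiableOn ℂ E (ball c0 ρ) ∧ E =ᶠ[𝓝 z] g := by
  obtain ⟨U, R, h1, h2⟩ := class_all hS hRB hRD isOpen_ball (convex_ball c0 ρ).isPreconnected hz
    hga h
  exact hLOC φ r lam U R c0 ρ z g hSD hNC hB h1 hz hg h2

theorem glob_all (hGLB : S_GLBR) (hS : S_SEPA) (hRB : S_RBC) (hRD : S_RDC) {φ : ℂ → ℂ}
    {r lam : ℝ} {z0 : ℂ} (hSD : SData φ r lam)
    (hNC : ∀ m : ℕ, ¬ BCusp φ r lam m {w : ℂ | 1 < ‖w‖}) (h1 : 1 < ‖z0‖) (h2 : ‖z0‖ < r)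
    (h : Comb {w : ℂ | 1 < ‖w‖} z0 φ ∨ Lde {w : ℂ | 1 < ‖w‖} z0 φ) :
    ∃ Φ : ℂ → ℂ, Differentiable ℂ Φ ∧ EqOn Φ φ (ball 0 r) := by
  obtain ⟨U, R, h3, h4⟩ := class_all hS hRB hRD (isOpen_lt continuous_const continuous_norm)
    Pool.Agent.Helper6.SF.ext_pre h1
    (hSD.hD.hφ.analyticAt (isOpen_ball.mem_nhds (mem_ball_zero_iff.2 h2))) h
  exact hGLB φ r lam U R z0 hSD hNC h3 h1 h2 h4

end Pool.Agent.Helper6.SH
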