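import Pool.Agent.Helper6.SH.Stm2
import Pool.Agent.Helper6.SH.Fin

/-!
# Assembly: the class of combinations, and the germs with derivative in the class
-/

set_option autoImplicit false

open Complex MeasureTheory Metric Set Filter Topology ComplexConjugate

namespace Pool.Agent.Helper6.SH

open Pool.Agent.Results.MP_83fd13_an.BranchSingularities
open Pool.Agent.Helper6.SF (Ev Ev' BCusp)
open Pool.Agent.Helper6.SG (SData)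

/-- the data of a combination of solutions of first order linear equations -/
def CombU (B : Set ℂ) (z : ℂ) (f : ℂ → ℂ) : Prop :=
  ∃ (m : ℕ) (a : ℂ → ℂ) (h : Fin (m + 1) → ℂ → ℂ) (y g : Fin m → ℂ → ℂ), Alg B z a ∧
    (∀ i, Alg B z (h i)) ∧ (∀ i, Alg B z (g i)) ∧
    (∀ i, AnalyticAt ℂ (y i) z ∧ ∀ᶠ w in 𝓝 z, deriv (y i) w = a w * y i w + g i w) ∧
    ∀ᶠ w in 𝓝 z, f w = h 0 w + ∑ i : Fin m, h i.succ w * y i w

theorem class_u0 (hS : S_SEPA) (hRU : S_RUC) {B : Set ℂ} {z : ℂ} {f : ℂ → ℂ}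
    (hB : IsOpen B) (hBc : IsPreconnected B) (hz : z ∈ B) (h : CombU B z f) :
    ∃ (U : Set ℂ) (R : ℂ → (ℂ → ℂ) → Prop), RP0 B U R ∧ RT U R z f := by
  obtain ⟨m, a, h, y, g, h1, h2, h3, h4, h5⟩ := h
  obtain ⟨U, d, c, a1, a2, a3, a4⟩ := fam hS (ι := (Fin (m + 1) ⊕ Fin m) ⊕ Unit)
    (u := Sum.elim (Sum.elim h g) fun _ => a) hB hBc hz (by
      rintro ((i | i) | i)
      · exact h2 i
      · exact h3 i
      · exact h1)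
  refine ⟨U, RU m (fun i => d (Sum.inl (Sum.inl i))) (fun i => c (Sum.inl (Sum.inl i)))
    (fun i => d (Sum.inl (Sum.inr i))) (fun i => c (Sum.inl (Sum.inr i))) (d (Sum.inr ()))
    (c (Sum.inr ())), hRU B U m _ _ _ _ _ _ hB a1 a2 (fun i => a3 _) (fun i => a3 _) (a3 _), ?_⟩
  have h6 : ∀ᶠ w in 𝓝 z, ∀ i, AnalyticAt ℂ (y i) w :=
    eventually_all.2 fun i => (h4 i).1.eventually_analyticAt
  have h7 : ∀ᶠ w in 𝓝 z, ∀ i, ∀ᶠ v in 𝓝 w, deriv (y i) v = a v * y i v + g i v :=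
    eventually_all.2 fun i => eventually_eventually_nhds.2 (h4 i).2
  filter_upwards [a4, h6, h7, eventually_eventually_nhds.2 h5] with w b1 b2 b3 b4 hwU
  exact ⟨a, h, y, g, b1 hwU (Sum.inr ()), fun i => b1 hwU (Sum.inl (Sum.inl i)),
    fun i => b1 hwU (Sum.inl (Sum.inr i)), fun i => ⟨b2 i, b3 i⟩, b4⟩

theorem class_u (hS : S_SEPA) (hRU : S_RUC) (hLI : S_LIFT) {B : Set ℂ} {z : ℂ} {f : ℂ → ℂ}
    (hB : IsOpen B) (hBc : IsPreconnected B) (hz : z ∈ B) (hf : AnalyticAt ℂ f z)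
    (h : CombU B z f ∨ CombU B z (deriv f)) :
    ∃ (U : Set ℂ) (R : ℂ → (ℂ → ℂ) → Prop), RP B U R ∧ RT U R z f := by
  rcases h with h | h
  · obtain ⟨U, R, h1, h2⟩ := class_u0 hS hRU hB hBc hz h
    exact ⟨U, R, h1.rp, h2⟩
  · obtain ⟨U, R, h1, h2⟩ := class_u0 hS hRU hB hBc hz h
    refine ⟨U, _, hLI B U R h1, ?_⟩
    filter_upwards [h2, hf.eventually_analyticAt] with w h3 h4 h5
    exact ⟨h4, h3 h5⟩

theorem loc_u (hLOC : S_LOCR) (hS : S_SEPA) (hRU : S_RUC) (hLI : S_LIFT) {φ : ℂ → ℂ} {r lam : ℝ}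
    {c0 : ℂ} {ρ : ℝ} {z : ℂ} {g : ℂ → ℂ} (hSD : SData φ r lam)
    (hNC : ∀ m : ℕ, ¬ BCusp φ r lam m (ball c0 ρ)) (hB : ∀ w ∈ ball c0 ρ, 1 < ‖w‖)
    (hz : z ∈ ball c0 ρ) (hg : Branch φ r z g) (hga : AnalyticAt ℂ g z)
    (h : CombU (ball c0 ρ) z g ∨ CombU (ball c0 ρ) z (deriv g)) :
    ∃ E : ℂ → ℂ, DifferentiableOn ℂ E (ball c0 ρ) ∧ E =ᶠ[𝓝 z] g := by
  obtain ⟨U, R, h1, h2⟩ := class_u hS hRU hLI isOpen_ball (convex_ball c0 ρ).isPreconnected hz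
    hga h
  exact hLOC φ r lam U R c0 ρ z g hSD hNC hB h1 hz hg h2

theorem glob_u (hGLB : S_GLBR) (hS : S_SEPA) (hRU : S_RUC) (hLI : S_LIFT) {φ : ℂ → ℂ}
    {r lam : ℝ} {z0 : ℂ} (hSD : SData φ r lam)
    (hNC : ∀ m : ℕ, ¬ BCusp φ r lam m {w : ℂ | 1 < ‖w‖}) (h1 : 1 < ‖z0‖) (h2 : ‖z0‖ < r)
    (h : CombU {w : ℂ | 1 < ‖w‖} z0 φ ∨ CombU {w : ℂ | 1 < ‖w‖} z0 (deriv φ)) :
    ∃ Φ : ℂ → ℂ, Differentiable ℂ Φ ∧ EqOn Φ φ (ball 0 r) := by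
  obtain ⟨U, R, h3, h4⟩ := class_u hS hRU hLI (isOpen_lt continuous_const continuous_norm)
    Pool.Agent.Helper6.SF.ext_pre h1
    (hSD.hD.hφ.analyticAt (isOpen_ball.mem_nhds (mem_ball_zero_iff.2 h2))) h
  exact hGLB φ r lam U R z0 hSD hNC h3 h1 h2 h4

end Pool.Agent.Helper6.SH
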