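import Pool.Agent.Helper6.SH.Stm2
import Pool.Agent.Helper6.SH.RDC

/-!
# LIFT (helper63, after RDC of helper14): the germs with derivative in a class
-/

set_option autoImplicit false

open Complex MeasureTheory Metric Set Filter Topology ComplexConjugate

namespace Pool.Agent.Helper6.SH.LIFT

open Pool.Agent.E8helper32.SA (per)
open Pool.Agent.Helper6.SF (Ev Ev')
open Pool.Agent.Helper6.SH
open Pool.Agent.Helper6.SH.RDC

theorem main : S_LIFT := by
  intro B U R hR
  refine ⟨hR.hU, hR.hA, ?_, ?_, ?_⟩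
  · -- germs
    rintro w f g hw ⟨hf, hRf⟩ hfg
    exact ⟨hf.congr hfg, hR.congr w (deriv f) (deriv g) hw hRf hfg.deriv⟩
  · -- small discs
    intro y hy
    obtain ⟨δ, hδ, hs, h1⟩ := hR.ext y hy
    refine ⟨δ, hδ, hs, fun w hw f hf => ?_⟩
    obtain ⟨hfa, hRf⟩ := hf
    obtain ⟨E1, hE1, hEf1, h2⟩ := h1 w hw (deriv f) hRf
    have hpc : IsPreconnected (ball y δ) := (convex_ball y δ).isPreconnected
    obtain ⟨E, hE, hEf⟩ := Pool.Agent.Helper6.SG.SOL.prim hE1 hw hfa hEf1.symm
    have hEo : EqOn (deriv E) E1 (ball y δ) :=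
      ((hE.deriv isOpen_ball).analyticOnNhd isOpen_ball).eqOn_of_preconnected_of_eventuallyEq
        (hE1.analyticOnNhd isOpen_ball) hpc hw (hEf.deriv.trans hEf1.symm)
    refine ⟨E, hE, hEf, fun w' hw' => ⟨hE.analyticAt (isOpen_ball.mem_nhds hw'), ?_⟩⟩
    refine hR.congr w' E1 (deriv E) (hs hw') (h2 w' hw') ?_
    filter_upwards [isOpen_ball.mem_nhds hw'] with v hv
    exact (hEo hv).symm
  · -- circles
    intro x t0 ε G hε hst hG hgerm
    have hτ0 : |((t0 : ℂ)).re - t0| < ε := by
      rw [ofReal_re, sub_self, abs_zero]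
      exact hε
    have hpc : IsPreconnected (St t0 ε) := (st_convex t0 ε).isPreconnected
    obtain ⟨F, hFd⟩ : ∃ F : ℂ → ℂ, F = fun t => deriv G t * exp (-t) := ⟨_, rfl⟩
    have hG' : DifferentiableOn ℂ G (St t0 ε) := hG
    have hF : DifferentiableOn ℂ F (St t0 ε) := by
      rw [hFd]
      exact (hG'.deriv (st_open t0 ε)).mul
        (differentiable_exp.comp differentiable_neg).differentiableOn
    obtain ⟨N, κ, hN, hκ, hl⟩ := hR.circ x t0 ε F hε hst hF (fun τ hτ => by
      obtain ⟨f, ⟨hfa, hRf⟩, hGf⟩ := hgerm τ hτ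
      refine ⟨deriv f, hRf, ?_⟩
      rw [hFd]
      exact near_der hfa hGf)
    -- the derivative of `G`
    have hGd : ∀ τ ∈ St t0 ε, HasDerivAt G (exp τ * F τ) τ := by
      intro τ hτ
      have h3 : exp τ * F τ = deriv G τ := by
        rw [hFd]
        show exp τ * (deriv G τ * exp (-τ)) = deriv G τ
        rw [mul_comm, mul_assoc, ← exp_add, neg_add_cancel, exp_zero, mul_one]
      rw [h3]
      exact (hG'.differentiableAt ((st_open t0 ε).mem_nhds hτ)).hasDerivAt
    have hsh : ∀ τ ∈ St t0 ε, HasDerivAt (fun τ => G (τ + per N)) (exp τ * F (τ + per N)) τ := by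
      intro τ hτ
      have h3 : HasDerivAt (fun τ => G (τ + per N)) (exp (τ + per N) * F (τ + per N)) τ :=
        (hGd _ (st_shift _ hτ)).comp_add_const τ (per N)
      rw [exp_per] at h3
      exact h3
    have hsh2 : ∀ τ ∈ St t0 ε, HasDerivAt (fun τ => G (τ + per N + per N))
        (exp τ * F (τ + per N + per N)) τ := by
      intro τ hτ
      have h3 : HasDerivAt (fun τ => G (τ + per N + per N))
          (exp (τ + per N) * F (τ + per N + per N)) τ :=
        HasDerivAt.comp_add_const (f := fun τ => G (τ + per N)) τ (per N) (hsh _ (st_shift _ hτ))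
      rw [exp_per] at h3
      exact h3
    obtain ⟨D, hD⟩ : ∃ D : ℂ → ℂ, D = fun τ => (G (τ + per N + per N) - G (τ + per N)) -
      κ * (G (τ + per N) - G τ) := ⟨_, rfl⟩
    have hDd : ∀ τ ∈ St t0 ε, HasDerivAt D 0 τ := by
      intro τ hτ
      have h3 := ((hsh2 τ hτ).sub (hsh τ hτ)).sub (((hsh τ hτ).sub (hGd τ hτ)).const_mul κ)
      have h4 : exp τ * F (τ + per N + per N) - exp τ * F (τ + per N) -
          κ * (exp τ * F (τ + per N) - exp τ * F τ) = 0 := by
        have h5 := hl τ hτ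
        linear_combination (exp τ) * h5
      rw [h4] at h3
      rw [hD]
      exact h3
    have hcst : ∀ τ ∈ St t0 ε, D τ = D t0 := fun τ hτ =>
      (st_open t0 ε).is_const_of_deriv_eq_zero hpc (f := D)
        (fun w hw => (hDd w hw).differentiableAt.differentiableWithinAt)
        (fun w hw => (hDd w hw).deriv) hτ hτ0
    refine ⟨N, κ, D t0, hN, hκ, fun τ hτ => ?_⟩
    rw [← hcst τ hτ, hD]
    ring

end Pool.Agent.Helper6.SH.LIFT
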