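import Pool.Agent.Helper6.SH.Stm2
import Pool.Agent.Helper6.SH.RBC
import Pool.Agent.Helper6.SH.RDC

/-!
# RUC: combinations of solutions of linear equations with algebroid coefficients (helper99)
-/

set_option autoImplicit false

open Complex MeasureTheory Metric Set Filter Topology ComplexConjugate

namespace Pool.Agent.Helper6.SH.RUC

open Pool.Agent.E8helper32.SA (per per_re exp_add_per eqOn_convex)
open Pool.Agent.Helper6.SH.RBC (St St_open St_conv prim eq_of_deriv per_dvd)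

theorem main : S_ALGX → S_ALGC → S_RUC := by
  intro hX hC B U m dh ch dg cg dq cq hB hU hA hsh hsg hsq
  have hW : IsOpen (B ∩ U) := hB.inter hU
  refine ⟨hU, hA, ?_, ?_, ?_⟩
  · rintro w f g - ⟨q, h, y, k, h1, h2, h3, h4, h5⟩ hfg
    exact ⟨q, h, y, k, h1, h2, h3, h4, hfg.symm.trans h5⟩
  · intro y0 hy
    have e1 : ∀ᶠ δ in 𝓝[>] (0 : ℝ), ∀ i, ball y0 δ ⊆ B ∩ U ∧ ∀ w ∈ ball y0 δ, ∀ u : ℂ → ℂ,
        AG (dh i) (ch i) w u → ∃ E : ℂ → ℂ, DifferentiableOn ℂ E (ball y0 δ) ∧ E =ᶠ[𝓝 w] u ∧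
          ∀ w' ∈ ball y0 δ, AG (dh i) (ch i) w' E :=
      eventually_all.2 fun i => hX _ _ _ y0 hW (hsh i) hy
    have e2 : ∀ᶠ δ in 𝓝[>] (0 : ℝ), ∀ i, ball y0 δ ⊆ B ∩ U ∧ ∀ w ∈ ball y0 δ, ∀ u : ℂ → ℂ,
        AG (dg i) (cg i) w u → ∃ E : ℂ → ℂ, DifferentiableOn ℂ E (ball y0 δ) ∧ E =ᶠ[𝓝 w] u ∧
          ∀ w' ∈ ball y0 δ, AG (dg i) (cg i) w' E :=
      eventually_all.2 fun i => hX _ _ _ y0 hW (hsg i) hy
    obtain ⟨δ, ⟨⟨h1, h2⟩, h3⟩, h4⟩ := (((e1.and e2).and (hX _ dq cq y0 hW hsq hy)).and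
      self_mem_nhdsWithin).exists
    refine ⟨δ, h4, (h1 0).1, ?_⟩
    rintro w hw f ⟨q, h, y, g, hq, hh, hg, hy', hf⟩
    choose E hE1 hE2 hE3 using fun i => (h1 i).2 w hw (h i) (hh i)
    choose K hK1 hK2 hK3 using fun i => (h2 i).2 w hw (g i) (hg i)
    obtain ⟨Q, hQ1, hQ2, hQ3⟩ := h3.2 w hw q hq
    have hode : ∀ i, ∀ᶠ v in 𝓝 w, deriv (y i) v - Q v * y i v = K i v := by
      intro i
      filter_upwards [(hy' i).2, hQ2, hK2 i] with v a1 a2 a3
      rw [a1, a2, a3]
      ring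
    choose P hP1 hP2 using fun i =>
      Pool.Agent.Helper6.SG.SOL.sol1 hQ1 (hK1 i) hw (hy' i).1 (hode i)
    have hPo : ∀ i, ∀ v ∈ ball y0 δ, deriv (P i) v = 1 * (Q v * P i v + K i v) := by
      intro i
      refine RDC.glob isOpen_ball (convex_ball y0 δ).isPreconnected (e := fun _ => 1)
        (differentiableOn_const _) (hP1 i) hQ1 (hK1 i) hw ?_
      filter_upwards [hode i, eventually_eventually_nhds.2 (hP2 i)] with v a1 a2
      have a3 : P i =ᶠ[𝓝 v] y i := a2
      rw [a3.deriv_eq, a3.eq_of_nhds, ← a1]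
      ring
    refine ⟨fun v => E 0 v + ∑ i : Fin m, E i.succ v * P i v, ?_, ?_, ?_⟩
    · exact (hE1 0).add (DifferentiableOn.fun_sum fun i _ => (hE1 i.succ).mul (hP1 i))
    · have e3 : ∀ᶠ v in 𝓝 w, ∀ i : Fin m, P i v = y i v := eventually_all.2 hP2
      have e4 : ∀ᶠ v in 𝓝 w, ∀ i : Fin (m + 1), E i v = h i v := eventually_all.2 hE2
      filter_upwards [e3, e4, hf] with v a1 a2 a3
      rw [a3, a2 0]
      congr 1
      exact Finset.sum_congr rfl fun i _ => by rw [a1 i, a2 i.succ]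
    · intro w' hw'
      refine ⟨Q, E, P, K, hQ3 w' hw', fun i => hE3 i w' hw', fun i => hK3 i w' hw',
        fun i => ⟨(hP1 i).analyticAt (isOpen_ball.mem_nhds hw'), ?_⟩, EventuallyEq.rfl⟩
      filter_upwards [isOpen_ball.mem_nhds hw'] with v hv
      rw [hPo i v hv, one_mul]
  · intro x t0 ε G hε hτ hG hR
    have hSo := St_open t0 ε
    have hSc := St_conv t0 ε
    have h0' : |((t0 : ℂ)).re - t0| < ε := by simpa using hε
    have h0 : (t0 : ℂ) ∈ St t0 ε := h0'
    obtain ⟨f, ⟨q, h, y, g, hq, hh, hg, hy', hf⟩, hGf⟩ := hR t0 h0'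
    choose V hV1 hV2 N hN hVN using fun i => hC _ _ _ x t0 ε t0 (h i) hW (hsh i) hε hτ h0' (hh i)
    choose K hK1 hK2 M hM hKM using
      fun i => hC _ _ _ x t0 ε t0 (g i) hW (hsg i) hε hτ h0' (hg i)
    obtain ⟨Q, hQ1, hQ2, L, hL, hQL⟩ := hC _ _ _ x t0 ε t0 q hW hsq hε hτ h0' hq
    obtain ⟨T, hT, hNT, hMT, hLT⟩ : ∃ T : ℕ, 0 < T ∧ (∀ i, N i ∣ T) ∧ (∀ i, M i ∣ T) ∧ L ∣ T := by
      refine ⟨(∏ i, N i) * (∏ i, M i) * L, ?_, fun i => ?_, fun i => ?_, ?_⟩
      · exact Nat.mul_pos (Nat.mul_pos (Finset.prod_pos fun i _ => hN i)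
          (Finset.prod_pos fun i _ => hM i)) hL
      · exact ((Finset.dvd_prod_of_mem N (Finset.mem_univ i)).mul_right _).mul_right _
      · exact ((Finset.dvd_prod_of_mem M (Finset.mem_univ i)).mul_left _).mul_right _
      · exact dvd_mul_left _ _
    have hVT : ∀ i, ∀ τ : ℂ, |τ.re - t0| < ε → V i (τ + per T) = V i τ :=
      fun i => per_dvd (hVN i) (hNT i)
    have hKT : ∀ i, ∀ τ : ℂ, |τ.re - t0| < ε → K i (τ + per T) = K i τ :=
      fun i => per_dvd (hKM i) (hMT i)
    have hQT : ∀ τ : ℂ, |τ.re - t0| < ε → Q (τ + per T) = Q τ := per_dvd hQL hLT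
    have hsh' : ∀ τ : ℂ, |τ.re - t0| < ε → |(τ + per T).re - t0| < ε := by
      intro τ h1
      rw [add_re, per_re, add_zero]
      exact h1
    have hexp : DifferentiableOn ℂ exp (St t0 ε) := differentiable_exp.differentiableOn
    -- the integrating factor
    obtain ⟨P, -, hP⟩ := prim (D := fun τ => exp τ * Q τ) hSo hSc (hexp.mul hQ1) h0 0
    have hPd : DifferentiableOn ℂ P (St t0 ε) :=
      fun t ht => (hP t ht).differentiableAt.differentiableWithinAt
    have hPm : ∀ τ ∈ St t0 ε, HasDerivAt (fun τ => exp (-P τ)) (exp (-P τ) * (-(exp τ * Q τ))) τ :=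
      fun τ h1 => (hP τ h1).neg.cexp
    have hPp : ∀ τ ∈ St t0 ε, HasDerivAt (fun τ => exp (P τ)) (exp (P τ) * (exp τ * Q τ)) τ :=
      fun τ h1 => (hP τ h1).cexp
    have hPmd : DifferentiableOn ℂ (fun τ => exp (-P τ)) (St t0 ε) :=
      fun t ht => (hPm t ht).differentiableAt.differentiableWithinAt
    choose R hR0 hR' using fun i => prim (D := fun τ => exp (-P τ) * (exp τ * K i τ)) hSo hSc
      (hPmd.mul (hexp.mul (hK1 i))) h0 (exp (-P t0) * y i (x + exp t0))
    obtain ⟨Y, hYd⟩ : ∃ Y : Fin m → ℂ → ℂ, Y = fun i τ => exp (P τ) * R i τ := ⟨_, rfl⟩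
    have hexpP : ∀ τ, exp (P τ) * exp (-P τ) = 1 := by
      intro τ
      rw [← exp_add, add_neg_cancel, exp_zero]
    have hY : ∀ i, ∀ τ ∈ St t0 ε, HasDerivAt (Y i) (exp τ * (Q τ * Y i τ + K i τ)) τ := by
      intro i τ h1
      have h2 := (hPp τ h1).mul (hR' i τ h1)
      have h3 : exp (P τ) * (exp τ * Q τ) * R i τ + exp (P τ) * (exp (-P τ) * (exp τ * K i τ)) =
          exp τ * (Q τ * Y i τ + K i τ) := by
        rw [hYd]
        linear_combination (exp τ * K i τ) * hexpP τ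
      rw [h3] at h2
      rw [hYd]
      rw [hYd] at h2
      exact h2
    have hYdf : ∀ i, DifferentiableOn ℂ (Y i) (St t0 ε) :=
      fun i t ht => (hY i t ht).differentiableAt.differentiableWithinAt
    have hcont : Tendsto (fun t : ℂ => x + exp t) (𝓝 (t0 : ℂ)) (𝓝 (x + exp t0)) :=
      (continuous_const.add continuous_exp).continuousAt
    have hYy : ∀ i, Y i =ᶠ[𝓝 (t0 : ℂ)] fun t => y i (x + exp t) := by
      intro i
      have h1 : (fun t => exp (-P t) * y i (x + exp t)) =ᶠ[𝓝 (t0 : ℂ)] R i := by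
        refine eq_of_deriv (f' := fun τ => exp (-P τ) * (exp τ * K i τ)) ?_ ?_ (hR0 i).symm
        · filter_upwards [hSo.mem_nhds h0, hcont.eventually
            (analyticAt_iff_eventually_differentiableAt.1 (hy' i).1), hcont.eventually (hy' i).2,
            hQ2, hK2 i] with t ht h2 h3 h4 h5
          have h6 : HasDerivAt (fun t => y i (x + exp t)) (deriv (y i) (x + exp t) * exp t) t :=
            HasDerivAt.comp (h₂ := y i) (h := fun t => x + exp t) t h2.hasDerivAt
              ((hasDerivAt_exp t).const_add x)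
          have h7 := (hPm t ht).mul h6
          have h8 : exp (-P t) * (-(exp t * Q t)) * y i (x + exp t) +
              exp (-P t) * (deriv (y i) (x + exp t) * exp t) = exp (-P t) * (exp t * K i t) := by
            rw [h3, h4, h5]
            ring
          rw [h8] at h7
          exact h7
        · filter_upwards [hSo.mem_nhds h0] with t ht
          exact hR' i t ht
      filter_upwards [h1] with t h2
      rw [hYd]
      show exp (P t) * R i t = y i (x + exp t)
      rw [← h2]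
      linear_combination (y i (x + exp t)) * hexpP t
    have hGF : EqOn G (fun τ => V 0 τ + ∑ i : Fin m, V i.succ τ * Y i τ) (St t0 ε) := by
      refine eqOn_convex hSc hSo hG ?_ h0 ?_
      · exact (hV1 0).add (DifferentiableOn.fun_sum fun i _ => (hV1 i.succ).mul (hYdf i))
      · have e3 : ∀ᶠ t in 𝓝 (t0 : ℂ), ∀ i : Fin m, Y i t = y i (x + exp t) :=
          eventually_all.2 hYy
        have e4 : ∀ᶠ t in 𝓝 (t0 : ℂ), ∀ i : Fin (m + 1), V i t = h i (x + exp t) :=
          eventually_all.2 hV2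
        filter_upwards [e3, e4, hGf, hcont.eventually hf] with t a1 a2 a3 a4
        rw [a3, a4, a2 0]
        congr 1
        exact Finset.sum_congr rfl fun i _ => by rw [a1 i, a2 i.succ]
    -- the periods of `P`
    obtain ⟨p0, hp0⟩ : ∃ p0 : ℂ, ∀ τ ∈ St t0 ε, P (τ + per T) = P τ + p0 := by
      refine ⟨P (t0 + per T) - P t0, fun τ h1 => ?_⟩
      have h2 : EqOn (fun τ => P (τ + per T)) (fun τ => P τ + (P (t0 + per T) - P t0))
          (St t0 ε) := by
        have b1 : ∀ τ ∈ St t0 ε, HasDerivAt (fun τ => P (τ + per T)) (exp τ * Q τ) τ := by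
          intro τ h3
          have := (hP (τ + per T) (hsh' τ h3)).comp_add_const τ (per T)
          rw [hQT τ h3, exp_add_per] at this
          exact this
        have b2 : ∀ τ ∈ St t0 ε, HasDerivAt (fun τ => P τ + (P (t0 + per T) - P t0))
            (exp τ * Q τ) τ := fun τ h3 => (hP τ h3).add_const _
        refine hSo.eqOn_of_deriv_eq hSc.isPreconnected
          (fun t ht => (b1 t ht).differentiableAt.differentiableWithinAt)
          (fun t ht => (b2 t ht).differentiableAt.differentiableWithinAt)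
          (fun t ht => by rw [(b1 t ht).deriv, (b2 t ht).deriv]) h0 ?_
        ring
      exact h2 h1
    -- the differences
    have hWC : ∀ i, ∃ C : ℂ, ∀ τ ∈ St t0 ε, Y i (τ + per T) - Y i τ = C * exp (P τ) := by
      intro i
      refine ⟨(Y i (t0 + per T) - Y i t0) * exp (-P t0), fun τ h1 => ?_⟩
      have b1 : ∀ τ ∈ St t0 ε, HasDerivAt (fun τ => (Y i (τ + per T) - Y i τ) * exp (-P τ)) 0 τ := by
        intro τ h3
        have c1 := (hY i (τ + per T) (hsh' τ h3)).comp_add_const τ (per T)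
        rw [hQT τ h3, hKT i τ h3, exp_add_per] at c1
        have c2 := (c1.sub (hY i τ h3)).mul (hPm τ h3)
        have c3 : (exp τ * (Q τ * Y i (τ + per T) + K i τ) - exp τ * (Q τ * Y i τ + K i τ)) *
            exp (-P τ) + (Y i (τ + per T) - Y i τ) * (exp (-P τ) * (-(exp τ * Q τ))) = 0 := by
          ring
        rw [← c3]
        exact c2
      have b2 := hSo.is_const_of_deriv_eq_zero hSc.isPreconnected
        (f := fun τ => (Y i (τ + per T) - Y i τ) * exp (-P τ))
        (fun w hw => (b1 w hw).differentiableAt.differentiableWithinAt)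
        (fun w hw => (b1 w hw).deriv) h1 h0
      have b3 : (Y i (τ + per T) - Y i τ) * exp (-P τ) = (Y i (t0 + per T) - Y i t0) * exp (-P t0) := b2
      rw [← b3]
      linear_combination (-(Y i (τ + per T) - Y i τ)) * hexpP τ
    choose C hC' using hWC
    refine ⟨T, exp p0, hT, exp_ne_zero _, fun τ h1 => ?_⟩
    have h2 := hsh' τ h1
    have h3 := hsh' _ h2
    have g0 := hGF h1
    have g1 := hGF h2
    have g2 := hGF h3
    simp only at g0 g1 g2
    rw [g0, g1, g2]
    rw [hVT 0 _ h2, hVT 0 _ h1]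
    have s1 : ∀ i : Fin m, V i.succ (τ + per T) * Y i (τ + per T) =
        V i.succ τ * Y i τ + V i.succ τ * (C i * exp (P τ)) := by
      intro i
      rw [hVT _ _ h1, ← hC' i τ h1]
      ring
    have s2 : ∀ i : Fin m, V i.succ (τ + per T + per T) * Y i (τ + per T + per T) =
        V i.succ τ * Y i τ + V i.succ τ * (C i * exp (P τ)) +
          exp p0 * (V i.succ τ * (C i * exp (P τ))) := by
      intro i
      have e5 : Y i (τ + per T + per T) = Y i (τ + per T) + C i * exp (P (τ + per T)) := by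
        rw [← hC' i _ h2]
        ring
      have e6 : Y i (τ + per T) = Y i τ + C i * exp (P τ) := by
        rw [← hC' i _ h1]
        ring
      rw [hVT _ _ h2, hVT _ _ h1, e5, e6, hp0 τ h1, exp_add]
      ring
    rw [Finset.sum_congr rfl fun i _ => s1 i, Finset.sum_congr rfl fun i _ => s2 i]
    rw [Finset.sum_add_distrib, Finset.sum_add_distrib, ← Finset.mul_sum]
    ring

end Pool.Agent.Helper6.SH.RUC
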