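import Pool.Agent.Helper6.SH.All
import Pool.Agent.Helper6.SH.Fin2
import Pool.Agent.Helper6.SH.RUC
import Pool.Agent.Helper6.SH.LIFT

/-!
# The modules together
-/

namespace Pool.Agent.Helper6.SH

theorem p_ruc : S_RUC := RUC.main ALGX.main p_algc
theorem p_lift : S_LIFT := LIFT.main

end Pool.Agent.Helper6.SH
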