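import Pool.Agent.Helper6.SH.ISOR
import Pool.Agent.Helper6.SH.LOCR
import Pool.Agent.Helper6.SH.PRPR
import Pool.Graph.R_pool_sql_team_seeded_b677cdb8.E8helper36.SQ.Icc
import Pool.Graph.R_pool_sql_team_seeded_b677cdb8.E8helper36.SQ.Ell
import Pool.Graph.R_pool_sql_team_seeded_b677cdb8.E8helper36.SQ.Fan
import Pool.Graph.R_pool_sql_team_seeded_b677cdb8.E8helper63.SQ.Lim
import Pool.Graph.R_pool_sql_team_seeded_b677cdb8.E8helper63.SQ.Strip

/-!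
# Classes of germs with linear or Moebius circle monodromy (from PRPR, ISOR, LOCR of helpers 77, 50, 63)
-/

set_option autoImplicit false

open Complex MeasureTheory Metric Set Filter Topology ComplexConjugate

namespace Pool.Agent.Helper6.SH.Gen

open Pool.Agent.Results.MP_83fd13_an.BranchSingularities
open Pool.Agent.E8helper32.SA (per per_re exp_add_per eqOn_convex branch_ball branch_congr branch_diff)
open Pool.Agent.E8helper32.SL
open Pool.Agent.E8helper32.SP (entire_of_ext)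
open Pool.Agent.E8helper32.SQ
open Pool.Agent.Helper6.SF hiding GoodR
open Pool.Agent.Helper6.SG
open Pool.Agent.Helper6.SH

/-- as `RP`, with a Moebius transformation or a linear relation for the monodromy along circles -/
structure RM (B U : Set ℂ) (R : ℂ → (ℂ → ℂ) → Prop) : Prop where
  hU : IsOpen U
  hA : (B \ U).Countable
  congr : ∀ (w : ℂ) (f g : ℂ → ℂ), w ∈ B ∩ U → R w f → f =ᶠ[𝓝 w] g → R w g
  ext : ∀ y ∈ B ∩ U, ∃ δ : ℝ, 0 < δ ∧ ball y δ ⊆ B ∩ U ∧ ∀ w ∈ ball y δ, ∀ f : ℂ → ℂ, R w f →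
    ∃ E : ℂ → ℂ, DifferentiableOn ℂ E (ball y δ) ∧ E =ᶠ[𝓝 w] f ∧ ∀ w' ∈ ball y δ, R w' E
  circ : ∀ (x : ℂ) (t0 ε : ℝ) (G : ℂ → ℂ), 0 < ε →
    (∀ τ : ℂ, |τ.re - t0| < ε → x + exp τ ∈ B ∩ U) →
    DifferentiableOn ℂ G {τ | |τ.re - t0| < ε} →
    (∀ τ : ℂ, |τ.re - t0| < ε → ∃ f : ℂ → ℂ, R (x + exp τ) f ∧ G =ᶠ[𝓝 τ] fun t => f (x + exp t)) →
    ∃ N : ℕ, 0 < N ∧ ((∃ a b c d : ℂ, a * d - b * c ≠ 0 ∧ ∀ τ : ℂ, |τ.re - t0| < ε →
      G (τ + per N) * (c * G τ + d) = a * G τ + b) ∨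
      ∃ κ c : ℂ, κ ≠ 0 ∧ ∀ τ : ℂ, |τ.re - t0| < ε →
        G (τ + per N + per N) - G (τ + per N) = κ * (G (τ + per N) - G τ) + c)

theorem prpm {B U : Set ℂ} {R : ℂ → (ℂ → ℂ) → Prop} {c0 : ℂ} {ρ : ℝ} {E g : ℂ → ℂ} {z z' : ℂ}
    (hR : RM B U R) (hB : ball c0 ρ ⊆ B) (hE : DifferentiableOn ℂ E (ball c0 ρ))
    (hz : z ∈ ball c0 ρ) (hEg : E =ᶠ[𝓝 z] g) (hT : RT U R z g) (hz' : z' ∈ ball c0 ρ) :
    RT U R z' E := by
  have hEa : AnalyticOnNhd ℂ E (ball c0 ρ) := hE.analyticOnNhd isOpen_ball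
  have hA : (ball c0 ρ \ U).Countable := hR.hA.mono (sdiff_subset_sdiff_left hB)
  have hW : IsPreconnected (ball c0 ρ ∩ U) := by
    have h1 := Pool.Agent.E8helper36.SQ.conn c0 ρ _ hA
    rwa [Set.sdiff_sdiff_right_self] at h1
  have hWo : IsOpen (ball c0 ρ ∩ U) := isOpen_ball.inter hR.hU
  -- a point of `U` near `z` at which the germ of `E` is in the class
  obtain ⟨w0, hw0, hRw0⟩ : ∃ w0 ∈ ball c0 ρ ∩ U, R w0 E := by
    have h1 : ∀ᶠ w in 𝓝 z, E =ᶠ[𝓝 w] g := eventually_eventually_nhds.2 hEg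
    obtain ⟨ε, hε, hεs⟩ := Metric.eventually_nhds_iff_ball.1
      ((hT.and h1).and (isOpen_ball.mem_nhds hz))
    obtain ⟨y1, hy1, hy1n⟩ : ∃ y1 ∈ ball z ε, y1 ∉ ball c0 ρ \ U := by
      obtain ⟨z2, h2, h3⟩ := (hA.dense_compl ℝ).inter_open_nonempty (ball z ε) isOpen_ball
        ⟨z, mem_ball_self hε⟩
      exact ⟨z2, h2, h3⟩
    have hy1x : y1 ∈ ball c0 ρ := (hεs y1 hy1).2
    have hy1U : y1 ∈ U := by
      by_contra h1
      exact hy1n ⟨hy1x, h1⟩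
    refine ⟨y1, ⟨hy1x, hy1U⟩, ?_⟩
    exact hR.congr y1 g E ⟨hB hy1x, hy1U⟩ ((hεs y1 hy1).1.1 hy1U) (hεs y1 hy1).1.2.symm
  have hall : ∀ w ∈ ball c0 ρ ∩ U, R w E := by
    refine Pool.Agent.Helper6.SF.clopen hW (P := fun w => R w E) ?_ hw0 hRw0
    intro y hy
    obtain ⟨δ, hδ, hδs, hext⟩ := hR.ext y ⟨hB hy.1, hy.2⟩
    obtain ⟨δ', hδ', hδ's⟩ := Metric.isOpen_iff.1 hWo y hy
    refine ⟨min δ δ', lt_min hδ hδ', (ball_subset_ball (min_le_right _ _)).trans hδ's, ?_⟩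
    intro w hw hRw v hv
    have hwδ : w ∈ ball y δ := ball_subset_ball (min_le_left _ _) hw
    obtain ⟨E', hE', hE'w, hE'R⟩ := hext w hwδ E hRw
    have h1 : AnalyticOnNhd ℂ E' (ball y (min δ δ')) := fun x hx =>
      hE'.analyticOnNhd isOpen_ball x (ball_subset_ball (min_le_left _ _) hx)
    have h2 : AnalyticOnNhd ℂ E (ball y (min δ δ')) := fun x hx =>
      hEa x (hδ's (ball_subset_ball (min_le_right _ _) hx)).1
    have h3 : EqOn E' E (ball y (min δ δ')) :=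
      h1.eqOn_of_preconnected_of_eventuallyEq h2 (convex_ball _ _).isPreconnected hw hE'w
    have h4 : E' =ᶠ[𝓝 v] E := by
      filter_upwards [isOpen_ball.mem_nhds hv] with x hx
      exact h3 hx
    have hvW := hδ's (ball_subset_ball (min_le_right _ _) hv)
    exact hR.congr v E' E ⟨hB hvW.1, hvW.2⟩ (hE'R v (ball_subset_ball (min_le_left _ _) hv)) h4
  filter_upwards [isOpen_ball.mem_nhds hz'] with w hw hwU
  exact hall w ⟨hw, hwU⟩

theorem isom {φ : ℂ → ℂ} {r lam : ℝ} {B U : Set ℂ} {R : ℂ → (ℂ → ℂ) → Prop} {x : ℂ} {ε0 : ℝ}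
    (hSD : SData φ r lam) (hNC : ∀ m : ℕ, ¬ BCusp φ r lam m B) (hBo : IsOpen B)
    (hB : ∀ w ∈ B, 1 < ‖w‖) (hRP : RM B U R) (hx : x ∈ B) (hε0 : 0 < ε0)
    (hgood : ∀ w ∈ ball x ε0, w ≠ x → w ∈ B → SH.GoodR φ r B U R w) : SH.GoodR φ r B U R x := by
  classical
  have hU := hRP.hU
  have hA := hRP.hA
  have hD := hSD.hD
  have hprop : ∀ (y : ℂ) (ρ : ℝ), ball y ρ ⊆ B → ∀ E g : ℂ → ℂ, DifferentiableOn ℂ E (ball y ρ) →
      ∀ z ∈ ball y ρ, E =ᶠ[𝓝 z] g → RT U R z g → ∀ z' ∈ ball y ρ, RT U R z' E := by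
    intro y ρ hs E g hE z hz hEg hS z' hz'
    exact prpm hRP hs hE hz hEg hS hz'
  obtain ⟨δ2, hδ2, hs2⟩ := Metric.isOpen_iff.1 hBo x hx
  set δ : ℝ := min ε0 δ2 with hδdef
  have hδ : 0 < δ := lt_min hε0 hδ2
  have hδB : ball x δ ⊆ B := (ball_subset_ball (min_le_right _ _)).trans hs2
  have hx1 : 1 < ‖x‖ := hB x hx
  refine ⟨δ, hδ, hδB, fun z hz g hg hS => ?_⟩
  obtain ⟨ε1, hε1, hgd1⟩ := branch_diff hD.hφ hg
  obtain ⟨ε2, hε2, hεs⟩ := Metric.eventually_nhds_iff_ball.1 (isOpen_ball.mem_nhds hz)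
  obtain ⟨ε, hεdef⟩ : ∃ ε : ℝ, ε = min ε1 ε2 := ⟨_, rfl⟩
  have hε : 0 < ε := by rw [hεdef]; exact lt_min hε1 hε2
  have hgd : DifferentiableOn ℂ g (ball z ε) :=
    hgd1.mono (ball_subset_ball (by rw [hεdef]; exact min_le_left _ _))
  have hεδ : ball z ε ⊆ ball x δ := fun w hw =>
    hεs w (ball_subset_ball (by rw [hεdef]; exact min_le_right _ _) hw)
  -- the point `z1`
  obtain ⟨z1, hz1, hz1x⟩ : ∃ z1 ∈ ball z ε, z1 ≠ x := by
    by_cases hzx : z = x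
    · refine ⟨z + ((ε / 2 : ℝ) : ℂ), ?_, ?_⟩
      · rw [mem_ball, dist_eq_norm, add_sub_cancel_left, norm_real,
          Real.norm_of_nonneg (by positivity)]
        linarith
      · rw [hzx, ne_eq, add_eq_left, ofReal_eq_zero]
        positivity
    · exact ⟨z, mem_ball_self hε, hzx⟩
  have hz1δ := hεδ hz1
  have hbr1 : Branch φ r z1 g := branch_ball hg (fun w hw => hB w (hδB (hεδ hw))) hgd
    (mem_ball_self hε) hz1
  have hS1 : RT U R z1 g := hprop z ε (hεδ.trans hδB) g g hgd z (mem_ball_self hε)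
    (EventuallyEq.refl _ _) hS z1 hz1
  have hfin : ∀ E : ℂ → ℂ, DifferentiableOn ℂ E (ball x δ) → E =ᶠ[𝓝 z1] g → E =ᶠ[𝓝 z] g := by
    intro E hE hEg
    have h4 := eqOn_convex (convex_ball z ε) isOpen_ball (hE.mono hεδ) hgd hz1 hEg
    filter_upwards [isOpen_ball.mem_nhds (mem_ball_self (x := z) hε)] with w hw
    exact h4 hw
  -- the coordinate
  set L : ℝ := Real.log δ with hLdef
  have hexpL : Real.exp L = δ := Real.exp_log hδ
  have hzw : z1 - x ≠ 0 := sub_ne_zero.2 hz1x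
  set τ0 : ℂ := log (z1 - x) with hτ0def
  have hexp0 : exp τ0 = z1 - x := exp_log hzw
  have hz0 : x + exp τ0 = z1 := by rw [hexp0, add_sub_cancel]
  have hτ0 : τ0 ∈ HP L := by
    show τ0.re < L
    rw [hτ0def, log_re, hLdef]
    refine Real.log_lt_log (norm_pos_iff.2 hzw) ?_
    rwa [mem_ball, dist_eq_norm] at hz1δ
  have hmem : ∀ τ ∈ HP L, x + exp τ ∈ ball x δ ∧ x + exp τ ≠ x := by
    intro τ hτ
    constructor
    · rw [mem_ball, dist_eq_norm, add_sub_cancel_left, norm_exp, ← hexpL]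
      exact Real.exp_lt_exp.2 hτ
    · intro h
      exact exp_ne_zero τ (by simp at h)
  have hexpd : ∀ t : ℂ, DifferentiableAt ℂ (fun t => x + exp t) t := fun t =>
    (differentiableAt_const _).add differentiableAt_exp
  set P : ℂ → (ℂ → ℂ) → Prop := fun τ F => ∃ g' : ℂ → ℂ, Branch φ r (x + exp τ) g' ∧
    RT U R (x + exp τ) g' ∧ F =ᶠ[𝓝 τ] fun t => g' (x + exp t) with hP
  obtain ⟨G, hGd, hGg, hGP⟩ := cont (HP_conv L) (HP_open L) hτ0 P (by
    rintro τ F F' ⟨g', h1, h2, h3⟩ hFF'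
    exact ⟨g', h1, h2, hFF'.symm.trans h3⟩) (by
    intro y hy
    obtain ⟨hy1, hy2⟩ := hmem y hy
    obtain ⟨δ', hδ', hsub, hext⟩ := hgood (x + exp y) (ball_subset_ball (min_le_left _ _) hy1)
      hy2 (hδB hy1)
    obtain ⟨s, hs, hss⟩ := Metric.eventually_nhds_iff_ball.1
      ((hexpd y).continuousAt.eventually (isOpen_ball.mem_nhds (mem_ball_self hδ')))
    refine ⟨s, hs, ?_⟩
    rintro t ht - F ⟨g', h1, h2, h3⟩
    obtain ⟨E0, hE0, hE0g⟩ := hext _ (hss t ht) g' h1 h2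
    refine ⟨fun u => E0 (x + exp u), fun u hu => ?_, ?_, fun u hu _ => ?_⟩
    · have h4 : DifferentiableAt ℂ E0 (x + exp u) :=
        hE0.differentiableAt (isOpen_ball.mem_nhds (hss u hu))
      exact (DifferentiableAt.comp (g := E0) (f := fun t => x + exp t) u h4
        (hexpd u)).differentiableWithinAt
    · have h4 : (fun u => E0 (x + exp u)) =ᶠ[𝓝 t] fun u => g' (x + exp u) :=
        (hexpd t).continuousAt.tendsto.eventually hE0g
      exact h4.trans h3.symm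
    · refine ⟨E0, ?_, ?_, EventuallyEq.refl _ _⟩
      · exact branch_ball (branch_congr hD.hφ h1 hE0g.symm) (fun w hw => hB w (hsub hw)) hE0
          (hss t ht) (hss u hu)
      · exact hprop _ _ hsub E0 g' hE0 _ (hss t ht) hE0g h2 _ (hss u hu))
    (f := fun t => g (x + exp t)) ⟨g, by rw [hz0]; exact hbr1, by rw [hz0]; exact hS1,
      EventuallyEq.refl _ _⟩
  have hP0 : P0 φ r x L G := by
    refine ⟨hD, hx1, hGd, fun τ hτ => ?_⟩
    obtain ⟨g', h1, -, h3⟩ := hGP τ hτ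
    exact ⟨g', h1, h3⟩
  -- the circle
  obtain ⟨t0, ε', hε', hεL, hcirc⟩ := ISOR.circle (V := B ∩ U) (x := x) (L := L) hA (fun w hw _ hwA => by
    rw [hexpL] at hw
    refine ⟨hδB hw, ?_⟩
    by_contra h
    exact hwA ⟨hδB hw, h⟩) (hBo.inter hU)
  have hstrip : ∀ τ : ℂ, |τ.re - t0| < ε' → τ ∈ HP L := by
    intro τ hτ
    show τ.re < L
    have := (abs_lt.1 hτ).2
    linarith
  obtain ⟨N, hN, hmon0⟩ := hRP.circ x t0 ε' G hε' hcirc (hGd.mono hstrip) (by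
    intro τ hτ
    obtain ⟨g', -, h2, h3⟩ := hGP τ (hstrip τ hτ)
    exact ⟨g', h2.self_of_nhds (hcirc τ hτ).2, h3⟩)
  have hGs : ∀ s : ℂ, (∀ τ ∈ HP L, τ + s ∈ HP L) → DifferentiableOn ℂ (fun τ => G (τ + s)) (HP L) := fun s hs =>
    hGd.comp (differentiableOn_id.add_const _) fun τ hτ => hs τ hτ
  have hper : ∀ τ ∈ HP L, τ + per N ∈ HP L := fun τ hτ => HP_per hτ N
  have ht0 : (t0 : ℂ) ∈ HP L := hstrip _ (by simpa using hε')
  have h5 : ∀ᶠ τ : ℂ in 𝓝 (t0 : ℂ), |τ.re - t0| < ε' := by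
    have h6 : Continuous fun τ : ℂ => |τ.re - t0| := by fun_prop
    have h7 := h6.continuousAt (x := (t0 : ℂ))
    refine h7.eventually (gt_mem_nhds ?_)
    simpa using hε'
  have hB' : ∀ w ∈ ball x (Real.exp L), 1 < ‖w‖ := fun w hw => hB w (hδB (by rwa [hexpL] at hw))
  have hE : ∃ E : ℂ → ℂ, DifferentiableOn ℂ E (ball x (Real.exp L)) ∧
      ∀ τ : ℂ, τ.re < L → G τ = E (x + exp τ) := by
    rcases hmon0 with ⟨a, b, c, d, hdet, hrel⟩ | ⟨κ, c, hκ, hrel⟩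
    · have hmon : ∀ τ ∈ HP L, G (τ + per N) * (c * G τ + d) = a * G τ + b := by
        have h2 : DifferentiableOn ℂ (fun τ => G (τ + per N) * (c * G τ + d)) (HP L) :=
          (hGs _ hper).mul ((hGd.const_mul c).add_const d)
        have h3 : DifferentiableOn ℂ (fun τ => a * G τ + b) (HP L) := (hGd.const_mul a).add_const b
        have h4 := eqOn_convex (HP_conv L) (HP_open L) h2 h3 ht0 (by
          filter_upwards [h5] with τ hτ
          exact hrel τ hτ)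
        intro τ hτ
        exact h4 hτ
      rcases loc_q Pool.Agent.E8helper63.SQ.t_LIM
        (Pool.Agent.E8helper36.SQ.fan Pool.Agent.E8helper63.SQ.t_LIM)
        Pool.Agent.E8helper63.SQ.t_STRIP Pool.Agent.E8helper36.SQ.ell hP0 hSD.hlam hSD.hBU hSD.hNF
        hSD.hVG hB' hx hN (dd := N) le_rfl hdet (fun τ hτ => hmon τ hτ) with h | h
      · exact h
      · exact absurd h (hNC N)
    · have hmon : ∀ τ ∈ HP L, G (τ + per N + per N) - G (τ + per N) =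
          κ * (G (τ + per N) - G τ) + c := by
        have h2 : DifferentiableOn ℂ (fun τ => G (τ + per N + per N) - G (τ + per N)) (HP L) := by
          refine DifferentiableOn.sub ?_ (hGs _ hper)
          have h3 := hGs (per N + per N) (fun τ hτ => by
            rw [← add_assoc]
            exact hper _ (hper τ hτ))
          refine h3.congr fun τ _ => ?_
          simp only [add_assoc]
        have h3 : DifferentiableOn ℂ (fun τ => κ * (G (τ + per N) - G τ) + c) (HP L) :=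
          (((hGs _ hper).sub hGd).const_mul κ).add_const c
        have h4 := eqOn_convex (HP_conv L) (HP_open L) h2 h3 ht0 (by
          filter_upwards [h5] with τ hτ
          exact hrel τ hτ)
        intro τ hτ
        exact h4 hτ
      rcases lin φ r lam x L G B N κ c hSD hP0 hB' hx hN hκ hmon with h | ⟨m, -, hmC⟩
      · exact h
      · exact absurd hmC (hNC m)
  obtain ⟨E, hE, hGE⟩ := hE
  have hlm : Tendsto (lm x τ0) (𝓝 z1) (𝓝 τ0) := by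
    have h1 : DifferentiableAt ℂ (lm x τ0) (x + exp τ0) := lm_diff (κ := 1) le_rfl
      (mem_ball_self (by rw [one_mul]; exact norm_pos_iff.2 (exp_ne_zero _)))
    have h2 := h1.continuousAt.tendsto
    rwa [lm_self, hz0] at h2
  have hlme : ∀ᶠ w in 𝓝 z1, x + exp (lm x τ0 w) = w := by
    have h1 : ball (x + exp τ0) (1 * ‖exp τ0‖) ∈ 𝓝 z1 := by
      rw [hz0, one_mul]
      exact isOpen_ball.mem_nhds (mem_ball_self (norm_pos_iff.2 (exp_ne_zero _)))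
    filter_upwards [h1] with w hw
    rw [lm_exp le_rfl hw, add_sub_cancel]
  rw [hexpL] at hE
  refine ⟨E, hE, hfin E hE ?_⟩
  filter_upwards [hlme, hlm.eventually hGg, hlm.eventually ((HP_open L).mem_nhds hτ0)]
    with w h1 h2 h3
  rw [hGE _ h3, h1] at h2
  exact h2


variable {φ : ℂ → ℂ} {r : ℝ} {B U : Set ℂ} {R : ℂ → (ℂ → ℂ) → Prop}

theorem RT_congr (hRP : RM B U R) (hBo : IsOpen B) {z : ℂ} (hz : z ∈ B) {f g : ℂ → ℂ}
    (hR : RT U R z f) (hfg : f =ᶠ[𝓝 z] g) : RT U R z g := by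
  have h1 : ∀ᶠ y in 𝓝 z, f =ᶠ[𝓝 y] g := eventually_eventually_nhds.2 hfg
  have h2 : ∀ᶠ y in 𝓝 z, y ∈ B := hBo.mem_nhds hz
  filter_upwards [hR, h1, h2] with w h3 h4 h5 h6
  exact hRP.congr w f g ⟨h5, h6⟩ (h3 h6) h4

theorem GoodR_open {y : ℂ} (hG : GoodR φ r B U R y) : ∀ᶠ w in 𝓝 y, GoodR φ r B U R w := by
  obtain ⟨δ, hδ, hs, h1⟩ := hG
  filter_upwards [isOpen_ball.mem_nhds (mem_ball_self hδ)] with w hw
  have hsub : ball w (δ - dist w y) ⊆ ball y δ := ball_subset_ball' (by linarith)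
  refine ⟨δ - dist w y, by rw [mem_ball] at hw; linarith, hsub.trans hs, fun z hz g hg hS => ?_⟩
  obtain ⟨E, hE, hEg⟩ := h1 z (hsub hz) g hg hS
  exact ⟨E, hE.mono hsub, hEg⟩

theorem GoodR_reg (hRP : RM B U R) {y : ℂ} (hy : y ∈ B ∩ U) : GoodR φ r B U R y := by
  obtain ⟨δ, hδ, hs, h1⟩ := hRP.ext y hy
  refine ⟨δ, hδ, fun w hw => (hs hw).1, fun z hz g _ hS => ?_⟩
  obtain ⟨E, hE, hEg, -⟩ := h1 z hz g (hS.self_of_nhds (hs hz).2)
  exact ⟨E, hE, hEg⟩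

theorem RM_mono (hRP : RM B U R) {B' : Set ℂ} (hB' : IsOpen B') (hs : B' ⊆ B) : RM B' U R where
  hU := hRP.hU
  hA := hRP.hA.mono (sdiff_subset_sdiff_left hs)
  congr := fun w f g hw => hRP.congr w f g ⟨hs hw.1, hw.2⟩
  ext := by
    intro y hy
    obtain ⟨δ, hδ, hδs, h1⟩ := hRP.ext y ⟨hs hy.1, hy.2⟩
    obtain ⟨η, hη, hηs⟩ := Metric.isOpen_iff.1 hB' y hy.1
    have h2 : ball y (min δ η) ⊆ ball y δ := ball_subset_ball (min_le_left _ _)
    have h3 : ball y (min δ η) ⊆ ball y η := ball_subset_ball (min_le_right _ _)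
    refine ⟨min δ η, lt_min hδ hη, fun w hw => ⟨hηs (h3 hw), (hδs (h2 hw)).2⟩,
      fun w hw f hf => ?_⟩
    obtain ⟨E, hE, hEf, h4⟩ := h1 w (h2 hw) f hf
    exact ⟨E, hE.mono h2, hEf, fun w' hw' => h4 w' (h2 hw')⟩
  circ := by
    intro x t0 ε G hε h1 h2 h3
    exact hRP.circ x t0 ε G hε (fun τ hτ => ⟨hs (h1 τ hτ).1, (h1 τ hτ).2⟩) h2 h3

/-- **The local theorem.** -/
theorem locm {φ : ℂ → ℂ} {r lam : ℝ} {U : Set ℂ} {R : ℂ → (ℂ → ℂ) → Prop} {c0 : ℂ} {ρ : ℝ} {z : ℂ}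
    {g : ℂ → ℂ} (hSD : SData φ r lam) (hNC : ∀ m : ℕ, ¬ BCusp φ r lam m (ball c0 ρ))
    (hB : ∀ w ∈ ball c0 ρ, 1 < ‖w‖) (hRP : RM (ball c0 ρ) U R) (hz : z ∈ ball c0 ρ)
    (hg : Branch φ r z g) (hS : RT U R z g) :
    ∃ E : ℂ → ℂ, DifferentiableOn ℂ E (ball c0 ρ) ∧ E =ᶠ[𝓝 z] g := by
  have hD := hSD.hD
  have hprop : ∀ (y : ℂ) (ρ' : ℝ), ball y ρ' ⊆ ball c0 ρ → ∀ E g : ℂ → ℂ,
      DifferentiableOn ℂ E (ball y ρ') →
      ∀ z ∈ ball y ρ', E =ᶠ[𝓝 z] g → RT U R z g → ∀ z' ∈ ball y ρ', RT U R z' E := by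
    intro y ρ' hs E g hE z hz hEg hS z' hz'
    exact prpm hRP hs hE hz hEg hS hz'
  -- all points are good
  have hall : ∀ y ∈ ball c0 ρ, GoodR φ r (ball c0 ρ) U R y := by
    by_contra hcon
    push Not at hcon
    obtain ⟨y0, hy0, hy0g⟩ := hcon
    set A : Set ℂ := {y | y ∈ ball c0 ρ ∧ ¬ GoodR φ r (ball c0 ρ) U R y} with hAdef
    have hAs : A ⊆ ball c0 ρ \ U := by
      rintro y ⟨h1, h2⟩
      exact ⟨h1, fun h3 => h2 (GoodR_reg hRP ⟨h1, h3⟩)⟩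
    have hAo : IsOpen (ball c0 ρ \ A) := by
      rw [isOpen_iff_mem_nhds]
      rintro y ⟨h1, h2⟩
      have h3 : GoodR φ r (ball c0 ρ) U R y := by
        by_contra h3
        exact h2 ⟨h1, h3⟩
      filter_upwards [isOpen_ball.mem_nhds h1, GoodR_open h3] with w h4 h5
      exact ⟨h4, fun h6 => h6.2 h5⟩
    obtain ⟨x, hxA, ε, hε, hiso⟩ := Pool.Agent.E8helper36.SQ.iso (ball c0 ρ) A isOpen_ball
      (fun y hy => hy.1) hAo (hRP.hA.mono hAs) ⟨y0, hy0, hy0g⟩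
    refine hxA.2 (isom hSD hNC isOpen_ball
      hB hRP hxA.1 hε fun w hw hne hwB => ?_)
    by_contra h1
    exact hne (hiso w hw ⟨hwB, h1⟩)
  obtain ⟨G, hG, hGg, -⟩ := cont (convex_ball c0 ρ) isOpen_ball hz
    (fun y F => Branch φ r y F ∧ (y ∈ ball c0 ρ → RT U R y F)) (by
    rintro y F F' ⟨h1, h2⟩ hFF'
    exact ⟨branch_congr hD.hφ h1 hFF', fun hy => RT_congr hRP isOpen_ball hy (h2 hy) hFF'⟩) (by
    intro y hy
    obtain ⟨δ, hδ, hs, h1⟩ := hall y hy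
    refine ⟨δ, hδ, ?_⟩
    rintro t ht - F ⟨h2, h3⟩
    have h3' := h3 (hs ht)
    obtain ⟨E, hE, hEF⟩ := h1 t ht F h2 h3'
    refine ⟨E, hE, hEF, fun u hu _ => ⟨?_, fun _ => ?_⟩⟩
    · exact branch_ball (branch_congr hD.hφ h2 hEF.symm) (fun w hw => hB w (hs hw)) hE ht hu
    · exact hprop _ _ hs E F hE _ ht hEF h3' _ hu) (f := g) ⟨hg, fun _ => hS⟩
  exact ⟨G, hG, hGg⟩

/-- **The global theorem.** -/
theorem globm {φ : ℂ → ℂ} {r lam : ℝ} {U : Set ℂ} {R : ℂ → (ℂ → ℂ) → Prop} {z0 : ℂ}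
    (hSD : SData φ r lam) (hNC : ∀ m : ℕ, ¬ BCusp φ r lam m {w : ℂ | 1 < ‖w‖})
    (hRP : RM {w : ℂ | 1 < ‖w‖} U R) (hz01 : 1 < ‖z0‖) (hz0r : ‖z0‖ < r) (hR : RT U R z0 φ) :
    ∃ Φ : ℂ → ℂ, Differentiable ℂ Φ ∧ EqOn Φ φ (ball 0 r) := by
  have hD := hSD.hD
  have hr := hD.hr
  have hr0 : 0 < r := by linarith
  have hex : IsOpen {w : ℂ | 1 < ‖w‖} := isOpen_lt continuous_const continuous_norm
  refine entire_of_ext hr0 hD.hφ fun ρ hρ h hh hhφ x hx => ?_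
  have hρ1 : 1 < ρ := lt_of_lt_of_le hr hρ
  have hρ0 : 0 < ρ := by linarith
  rw [mem_sphere_zero_iff_norm] at hx
  have hann : IsOpen {w : ℂ | 1 < ‖w‖ ∧ ‖w‖ < ρ} :=
    (isOpen_lt continuous_const continuous_norm).inter
      (isOpen_lt continuous_norm continuous_const)
  have hSh : ∀ z ∈ {w : ℂ | 1 < ‖w‖ ∧ ‖w‖ < ρ}, RT U R z h :=
    clopen (ann_pre hρ0) (by
      intro x hx
      obtain ⟨t, ht, hts⟩ := Metric.isOpen_iff.1 hann x hx
      have h1 : ball x t ⊆ {w : ℂ | 1 < ‖w‖} := fun w hw => (hts hw).1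
      refine ⟨t, ht, hts, fun y hy hPy z hz => ?_⟩
      exact prpm hRP h1
        (hh.mono fun w hw => by rw [mem_ball_zero_iff]; exact (hts hw).2) hy
        (EventuallyEq.refl _ _) hPy hz) (x0 := z0) ⟨hz01, hz0r.trans_le hρ⟩
      (RT_congr hRP hex hz01 hR (by
        filter_upwards [isOpen_ball.mem_nhds (mem_ball_zero_iff.2 hz0r)] with w hw
        exact (hhφ hw).symm))
  have hB : ∀ w ∈ ball x (ρ - 1), 1 < ‖w‖ := by
    intro w hw
    rw [mem_ball, dist_eq_norm] at hw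
    have h2 : ‖x‖ ≤ ‖w‖ + ‖w - x‖ := by
      have := norm_sub_le w (w - x)
      rwa [sub_sub_cancel] at this
    linarith
  -- the point `z`
  set s : ℝ := (ρ + 1) / (2 * ρ) with hs
  have hs0 : 0 < s := by positivity
  have hsρ : s * ρ = (ρ + 1) / 2 := by rw [hs]; field_simp
  have hs1 : s < 1 := by
    rw [hs, div_lt_one (by positivity)]; linarith
  have hzn : ‖(s : ℂ) * x‖ = (ρ + 1) / 2 := by
    rw [norm_mul, norm_real, Real.norm_of_nonneg hs0.le, hx, hsρ]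
  have hzx : (s : ℂ) * x ∈ ball x (ρ - 1) := by
    have e : (s : ℂ) * x - x = ((s - 1 : ℝ) : ℂ) * x := by push_cast; ring
    rw [mem_ball, dist_eq_norm, e, norm_mul, norm_real, hx, Real.norm_eq_abs,
      abs_of_neg (by linarith)]
    have : -(s - 1) * ρ = ρ - (ρ + 1) / 2 := by rw [← hsρ]; ring
    rw [this]
    linarith
  have hz0 : (s : ℂ) * x ∈ ball (0 : ℂ) ρ := by rw [mem_ball_zero_iff, hzn]; linarith
  obtain ⟨E, hE, hEh⟩ := locm hSD
    (fun m hC => hNC m (hC.mono le_rfl hB)) hB (RM_mono hRP isOpen_ball hB) hzx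
    (branch_radial hD hρ hh hhφ hz0 (by rw [hzn]; linarith)) (hSh _ (by
      refine ⟨?_, ?_⟩
      · rw [hzn]; linarith
      · rw [hzn]; linarith))
  exact ⟨ρ - 1, E, _, by linarith, hE, ⟨hzx, hz0⟩, hEh⟩


end Pool.Agent.Helper6.SH.Gen
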