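import Pool.Agent.Helper6.SG.Fin

/-!
# Statements of the modules: classes of germs with linear circle monodromy
-/

set_option autoImplicit false

open Complex MeasureTheory Metric Set Filter Topology ComplexConjugate

namespace Pool.Agent.Helper6.SH

open Pool.Agent.Results.MP_83fd13_an.BranchSingularities
open Pool.Agent.E8helper32.SA (per)
open Pool.Agent.E8helper32.SQ (HP)
open Pool.Agent.Helper6.SF (Ev Ev' BCusp)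
open Pool.Agent.Helper6.SG (SData)

/-- A class `R` of germs of holomorphic functions at the points of the open set `B ∩ U`, `B \ U`
countable, which is closed under analytic continuation in `B ∩ U`, such that the monodromy along
circles `|w - x| = exp t0` in `B ∩ U` (in the coordinate `τ`, `w = x + exp τ`, in a strip) satisfies
a linear relation. -/
structure RP (B U : Set ℂ) (R : ℂ → (ℂ → ℂ) → Prop) : Prop where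
  hU : IsOpen U
  hA : (B \ U).Countable
  congr : ∀ (w : ℂ) (f g : ℂ → ℂ), w ∈ B ∩ U → R w f → f =ᶠ[𝓝 w] g → R w g
  ext : ∀ y ∈ B ∩ U, ∃ δ : ℝ, 0 < δ ∧ ball y δ ⊆ B ∩ U ∧ ∀ w ∈ ball y δ, ∀ f : ℂ → ℂ, R w f →
    ∃ E : ℂ → ℂ, DifferentiableOn ℂ E (ball y δ) ∧ E =ᶠ[𝓝 w] f ∧ ∀ w' ∈ ball y δ, R w' E
  circ : ∀ (x : ℂ) (t0 ε : ℝ) (G : ℂ → ℂ), 0 < ε →
    (∀ τ : ℂ, |τ.re - t0| < ε → x + exp τ ∈ B ∩ U) →
    DifferentiableOn ℂ G {τ | |τ.re - t0| < ε} →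
    (∀ τ : ℂ, |τ.re - t0| < ε → ∃ f : ℂ → ℂ, R (x + exp τ) f ∧ G =ᶠ[𝓝 τ] fun t => f (x + exp t)) →
    ∃ (N : ℕ) (κ c : ℂ), 0 < N ∧ κ ≠ 0 ∧ ∀ τ : ℂ, |τ.re - t0| < ε →
      G (τ + per N + per N) - G (τ + per N) = κ * (G (τ + per N) - G τ) + c

/-- the germ `g` at `z` belongs to the class at the points of `U` near `z` -/
def RT (U : Set ℂ) (R : ℂ → (ℂ → ℂ) → Prop) (z : ℂ) (g : ℂ → ℂ) : Prop :=
  ∀ᶠ w in 𝓝 z, w ∈ U → R w g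

/-- PRPR: propagation in discs. (The set of `w ∈ ball c0 ρ ∩ U` with `R w E` is open and closed in
the connected set `ball c0 ρ ∩ U` by `ext`, `congr` and the identity theorem;
`Pool.Agent.Helper6.SF.pre_inter`, `Pool.Agent.Helper6.SF.clopen`.) -/
def S_PRPR : Prop := ∀ (B U : Set ℂ) (R : ℂ → (ℂ → ℂ) → Prop) (c0 : ℂ) (ρ : ℝ) (E g : ℂ → ℂ)
  (z z' : ℂ), RP B U R → ball c0 ρ ⊆ B → DifferentiableOn ℂ E (ball c0 ρ) → z ∈ ball c0 ρ →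
  E =ᶠ[𝓝 z] g → RT U R z g → z' ∈ ball c0 ρ → RT U R z' E

/-- a point near which all branches in the class extend -/
def GoodR (φ : ℂ → ℂ) (r : ℝ) (B U : Set ℂ) (R : ℂ → (ℂ → ℂ) → Prop) (y : ℂ) : Prop :=
  ∃ δ : ℝ, 0 < δ ∧ ball y δ ⊆ B ∧ ∀ z ∈ ball y δ, ∀ g : ℂ → ℂ, Branch φ r z g → RT U R z g →
    ∃ E : ℂ → ℂ, DifferentiableOn ℂ E (ball y δ) ∧ E =ᶠ[𝓝 z] g

/-- ISOR: isolated points (as `SG/ISOX.lean`, lines 77 to the end; continue the branch in `HP L` as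
there; choose `t0 < L` such that the circle `|w - x| = exp t0` avoids the countable set `B \ U`, then
`ε` by compactness of the circle; `circ` gives the linear relation in the strip, the identity
theorem gives it in `HP L`; then `SG.lin : S_LIN`) -/
def S_ISOR : Prop := ∀ (φ : ℂ → ℂ) (r lam : ℝ) (B U : Set ℂ) (R : ℂ → (ℂ → ℂ) → Prop) (x : ℂ)
  (ε0 : ℝ), SData φ r lam → (∀ m : ℕ, ¬ BCusp φ r lam m B) → IsOpen B → (∀ w ∈ B, 1 < ‖w‖) →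
  RP B U R → x ∈ B → 0 < ε0 → (∀ w ∈ ball x ε0, w ≠ x → w ∈ B → GoodR φ r B U R w) →
  GoodR φ r B U R x

/-- LOCR: the local theorem (as `loc_R` in `SG/LOCX.lean`; regular points are good by `ext`) -/
def S_LOCR : Prop := ∀ (φ : ℂ → ℂ) (r lam : ℝ) (U : Set ℂ) (R : ℂ → (ℂ → ℂ) → Prop) (c0 : ℂ)
  (ρ : ℝ) (z : ℂ) (g : ℂ → ℂ), SData φ r lam → (∀ m : ℕ, ¬ BCusp φ r lam m (ball c0 ρ)) →
  (∀ w ∈ ball c0 ρ, 1 < ‖w‖) → RP (ball c0 ρ) U R → z ∈ ball c0 ρ → Branch φ r z g →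
  RT U R z g → ∃ E : ℂ → ℂ, DifferentiableOn ℂ E (ball c0 ρ) ∧ E =ᶠ[𝓝 z] g

/-- GLBR: the global theorem (as `glob` in `SG/LOCX.lean`; restrict `R` to balls first: LOCR is used
with `RP (ball x s) U R`, which follows from `RP {1 < ‖w‖} U R`: in `ext` make `δ` smaller) -/
def S_GLBR : Prop := ∀ (φ : ℂ → ℂ) (r lam : ℝ) (U : Set ℂ) (R : ℂ → (ℂ → ℂ) → Prop) (z0 : ℂ),
  SData φ r lam → (∀ m : ℕ, ¬ BCusp φ r lam m {w : ℂ | 1 < ‖w‖}) →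
  RP {w : ℂ | 1 < ‖w‖} U R → 1 < ‖z0‖ → ‖z0‖ < r → RT U R z0 φ →
  ∃ Φ : ℂ → ℂ, Differentiable ℂ Φ ∧ EqOn Φ φ (ball 0 r)

/-- a separable algebroid relation on `W` -/
structure Sep (W : Set ℂ) (d : ℕ) (c : ℕ → ℂ → ℂ) : Prop where
  hc : ∀ k ≤ d, DifferentiableOn ℂ (c k) W
  hd : ∀ w ∈ W, c d w ≠ 0
  hs : ∀ w ∈ W, ∀ x, Ev d c w x = 0 → Ev' d c w x ≠ 0

/-- germs of algebroid functions -/
def AG (d : ℕ) (c : ℕ → ℂ → ℂ) (w : ℂ) (u : ℂ → ℂ) : Prop :=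
  AnalyticAt ℂ u w ∧ ∀ᶠ v in 𝓝 w, Ev d c v (u v) = 0

/-- ALGX: extension of algebroid germs to small discs (`Pool.Agent.Helper6.SF.roots_fn`, `pigeon`) -/
def S_ALGX : Prop := ∀ (W : Set ℂ) (d : ℕ) (c : ℕ → ℂ → ℂ) (y : ℂ), IsOpen W → Sep W d c → y ∈ W →
  ∀ᶠ δ in 𝓝[>] (0 : ℝ), ball y δ ⊆ W ∧ ∀ w ∈ ball y δ, ∀ u : ℂ → ℂ, AG d c w u →
    ∃ E : ℂ → ℂ, DifferentiableOn ℂ E (ball y δ) ∧ E =ᶠ[𝓝 w] u ∧ ∀ w' ∈ ball y δ, AG d c w' E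

/-- ALGC: continuation of an algebroid germ along a circle, in a strip of the coordinate `τ`
(`Pool.Agent.E8helper32.SQ.cont` and ALGX); two of the values after `0, ..., d` turns agree
(`card_le`, `pigeon` in `SF/Rt.lean`, `SF/Rl.lean`, as in `iso_ptR`), so there is a period. -/
def S_ALGC : Prop := ∀ (W : Set ℂ) (d : ℕ) (c : ℕ → ℂ → ℂ) (x : ℂ) (t0 ε : ℝ) (τ0 : ℂ) (u : ℂ → ℂ),
  IsOpen W → Sep W d c → 0 < ε → (∀ τ : ℂ, |τ.re - t0| < ε → x + exp τ ∈ W) →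
  |τ0.re - t0| < ε → AG d c (x + exp τ0) u →
  ∃ V : ℂ → ℂ, DifferentiableOn ℂ V {τ | |τ.re - t0| < ε} ∧ (V =ᶠ[𝓝 τ0] fun t => u (x + exp t)) ∧
    ∃ N : ℕ, 0 < N ∧ ∀ τ : ℂ, |τ.re - t0| < ε → V (τ + per N) = V τ

/-- SEPA: from a relation to a separable relation (as in the proof of `loc_A` in `SF/Glob.lean`:
`sep_an`, `zeros_countable`, `pre_inter`) -/
def S_SEPA : Prop := ∀ (B U : Set ℂ) (d : ℕ) (c : ℕ → ℂ → ℂ) (z : ℂ) (u : ℂ → ℂ), IsOpen B →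
  IsPreconnected B → IsOpen U → (B \ U).Countable →
  (∀ k ≤ d, DifferentiableOn ℂ (c k) (B ∩ U)) → (∃ w ∈ B ∩ U, c d w ≠ 0) → z ∈ B →
  AnalyticAt ℂ u z → (∀ᶠ w in 𝓝 z, w ∈ U → Ev d c w (u w) = 0) →
  ∃ (d' : ℕ) (c' : ℕ → ℂ → ℂ) (U' : Set ℂ), U' ⊆ U ∧ IsOpen U' ∧ (B \ U').Countable ∧
    Sep (B ∩ U') d' c' ∧ ∀ᶠ w in 𝓝 z, w ∈ U' → AG d' c' w u

/-- the germs `h 0 + ∑ h (i + 1) * I i`, `h i` and the derivatives of `I i` algebroid -/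
def RB (m : ℕ) (dh : Fin (m + 1) → ℕ) (ch : Fin (m + 1) → ℕ → ℂ → ℂ) (dI : Fin m → ℕ)
    (cI : Fin m → ℕ → ℂ → ℂ) (w : ℂ) (f : ℂ → ℂ) : Prop :=
  ∃ (h : Fin (m + 1) → ℂ → ℂ) (J : Fin m → ℂ → ℂ), (∀ i, AG (dh i) (ch i) w (h i)) ∧
    (∀ i, AnalyticAt ℂ (J i) w ∧ AG (dI i) (cI i) w (deriv (J i))) ∧
    f =ᶠ[𝓝 w] fun v => h 0 v + ∑ i : Fin m, h i.succ v * J i v

/-- RBC: this class is as in `RP`. (`circ`: continue `h i`, `deriv (J i)` by ALGC, with a common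
period `N`; primitives of `(deriv J) * exp` in the convex strip; `J (τ + per N) = J τ + c i`, so
`V τ = G (τ + per N) - G τ = ∑ c i * h i` has the period `N`: `κ = 1`, `c = 0`.) -/
def S_RBC : Prop := ∀ (B U : Set ℂ) (m : ℕ) (dh : Fin (m + 1) → ℕ) (ch : Fin (m + 1) → ℕ → ℂ → ℂ)
  (dI : Fin m → ℕ) (cI : Fin m → ℕ → ℂ → ℂ), IsOpen B → IsOpen U → (B \ U).Countable →
  (∀ i, Sep (B ∩ U) (dh i) (ch i)) → (∀ i, Sep (B ∩ U) (dI i) (cI i)) →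
  RP B U (RB m dh ch dI cI)

/-- the solutions of `f' = h f + k` (`j = 0`) or `f'' = h f' + k` (`j ≠ 0`), `h`, `k` algebroid -/
def RD (j : ℕ) (d1 : ℕ) (c1 : ℕ → ℂ → ℂ) (d2 : ℕ) (c2 : ℕ → ℂ → ℂ) (w : ℂ) (f : ℂ → ℂ) : Prop :=
  AnalyticAt ℂ f w ∧ ∃ h k : ℂ → ℂ, AG d1 c1 w h ∧ AG d2 c2 w k ∧
    ∀ᶠ v in 𝓝 w, if j = 0 then deriv f v = h v * f v + k v
      else deriv (deriv f) v = h v * deriv f v + k v

/-- RDC: this class is as in `RP`. (`ext`: ALGX and `SG.SOL.main`; `circ`: ALGC, with a common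
period `N` of `h`, `k`; `V τ = G (τ + per N) - G τ` satisfies `V' = exp * h * V`, so
`V' (τ + per N) * V τ = V' τ * V (τ + per N)`, hence `V (τ + per N) = κ * V τ`; for `j ≠ 0` the same
for `V' * exp (-τ)`.) -/
def S_RDC : Prop := ∀ (B U : Set ℂ) (j : ℕ) (d1 : ℕ) (c1 : ℕ → ℂ → ℂ) (d2 : ℕ)
  (c2 : ℕ → ℂ → ℂ), IsOpen B → IsOpen U → (B \ U).Countable → Sep (B ∩ U) d1 c1 →
  Sep (B ∩ U) d2 c2 → RP B U (RD j d1 c1 d2 c2)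

end Pool.Agent.Helper6.SH
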