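import Pool.Agent.Helper6.SH.Stm

/-!
# Statements of the modules: one class of combinations, and the germs with derivative in the class
-/

set_option autoImplicit false

open Complex MeasureTheory Metric Set Filter Topology ComplexConjugate

namespace Pool.Agent.Helper6.SH

open Pool.Agent.Results.MP_83fd13_an.BranchSingularities
open Pool.Agent.E8helper32.SA (per)
open Pool.Agent.E8helper32.SQ (HP)
open Pool.Agent.Helper6.SF (Ev Ev' BCusp)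
open Pool.Agent.Helper6.SG (SData)

/-- as `RP`, with `c = 0` -/
structure RP0 (B U : Set ℂ) (R : ℂ → (ℂ → ℂ) → Prop) : Prop where
  hU : IsOpen U
  hA : (B \ U).Countable
  congr : ∀ (w : ℂ) (f g : ℂ → ℂ), w ∈ B ∩ U → R w f → f =ᶠ[𝓝 w] g → R w g
  ext : ∀ y ∈ B ∩ U, ∃ δ : ℝ, 0 < δ ∧ ball y δ ⊆ B ∩ U ∧ ∀ w ∈ ball y δ, ∀ f : ℂ → ℂ, R w f →
    ∃ E : ℂ → ℂ, DifferentiableOn ℂ E (ball y δ) ∧ E =ᶠ[𝓝 w] f ∧ ∀ w' ∈ ball y δ, R w' E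
  circ : ∀ (x : ℂ) (t0 ε : ℝ) (G : ℂ → ℂ), 0 < ε →
    (∀ τ : ℂ, |τ.re - t0| < ε → x + exp τ ∈ B ∩ U) →
    DifferentiableOn ℂ G {τ | |τ.re - t0| < ε} →
    (∀ τ : ℂ, |τ.re - t0| < ε → ∃ f : ℂ → ℂ, R (x + exp τ) f ∧ G =ᶠ[𝓝 τ] fun t => f (x + exp t)) →
    ∃ (N : ℕ) (κ : ℂ), 0 < N ∧ κ ≠ 0 ∧ ∀ τ : ℂ, |τ.re - t0| < ε →
      G (τ + per N + per N) - G (τ + per N) = κ * (G (τ + per N) - G τ)

/-- the germs `h 0 + ∑ h (i + 1) * y i`, where `y i' = q * y i + g i`, and `q`, the `h i` and the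
`g i` are algebroid (the same `q` for all `i`) -/
def RU (m : ℕ) (dh : Fin (m + 1) → ℕ) (ch : Fin (m + 1) → ℕ → ℂ → ℂ) (dg : Fin m → ℕ)
    (cg : Fin m → ℕ → ℂ → ℂ) (dq : ℕ) (cq : ℕ → ℂ → ℂ) (w : ℂ) (f : ℂ → ℂ) : Prop :=
  ∃ (q : ℂ → ℂ) (h : Fin (m + 1) → ℂ → ℂ) (y g : Fin m → ℂ → ℂ), AG dq cq w q ∧
    (∀ i, AG (dh i) (ch i) w (h i)) ∧ (∀ i, AG (dg i) (cg i) w (g i)) ∧
    (∀ i, AnalyticAt ℂ (y i) w ∧ deriv (y i) =ᶠ[𝓝 w] fun v => q v * y i v + g i v) ∧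
    f =ᶠ[𝓝 w] fun v => h 0 v + ∑ i : Fin m, h i.succ v * y i v

/-- RUC: this class is as in `RP0`. (As RBC and RDC. `ext`: ALGX for `q`, `h i`, `g i`, and
`SG.SOL.main` with `i = 1` for the `y i`. `circ`: ALGC with a common period `N`; `Q`, `Y i` on the
strip, `Y i' = exp * (Q * Y i + G i)`; let `P' = exp * Q`, `P (τ + per N) = P τ + p0`, `κ = exp p0`;
`W i τ = Y i (τ + per N) - Y i τ` is `C i * exp (P τ)`, so `W i (τ + per N) = κ * W i τ`, and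
`G (τ + per N) - G τ = ∑ H (i + 1) * W i`.) -/
def S_RUC : Prop := ∀ (B U : Set ℂ) (m : ℕ) (dh : Fin (m + 1) → ℕ) (ch : Fin (m + 1) → ℕ → ℂ → ℂ)
  (dg : Fin m → ℕ) (cg : Fin m → ℕ → ℂ → ℂ) (dq : ℕ) (cq : ℕ → ℂ → ℂ), IsOpen B → IsOpen U →
  (B \ U).Countable → (∀ i, Sep (B ∩ U) (dh i) (ch i)) → (∀ i, Sep (B ∩ U) (dg i) (cg i)) →
  Sep (B ∩ U) dq cq → RP0 B U (RU m dh ch dg cg dq cq)

/-- LIFT: the germs with derivative in the class. (`ext`: the primitive of the extension of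
`deriv f`; `circ`: apply `circ` to `F τ = deriv G τ * exp (-τ)`, and integrate.) -/
def S_LIFT : Prop := ∀ (B U : Set ℂ) (R : ℂ → (ℂ → ℂ) → Prop), RP0 B U R →
  RP B U fun w f => AnalyticAt ℂ f w ∧ R w (deriv f)

theorem RP0.rp {B U : Set ℂ} {R : ℂ → (ℂ → ℂ) → Prop} (h : RP0 B U R) : RP B U R :=
  ⟨h.hU, h.hA, h.congr, h.ext, fun x t0 ε G h1 h2 h3 h4 => by
    obtain ⟨N, κ, h5, h6, h7⟩ := h.circ x t0 ε G h1 h2 h3 h4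
    exact ⟨N, κ, 0, h5, h6, fun τ hτ => by rw [add_zero]; exact h7 τ hτ⟩⟩

end Pool.Agent.Helper6.SH
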